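import Pool.Agent.H59.L.T97aac3.Q40.RP.Rees

/-!
# The frame of a regular local ring
-/

set_option autoImplicit false
set_option linter.unusedVariables false
set_option linter.unusedSectionVars false

universe u v

namespace Pool.Agent.Q40.RP

open MvPolynomial IsLocalRing Pool.Agent.W418.LU2

section base

variable {K : Type u} [Field K] {n : ℕ} {O : Subring K}

lemma ev_coe (x : Fin n → O) (E : MvPolynomial (Fin n) O) :
    ev O (fun i => (x i : K)) E = (eval x E : O) := by
  have h1 : ev O (fun i => (x i : K)) = O.subtype.comp (eval x) := by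
    apply MvPolynomial.ringHom_ext
    · intro r; simp
    · intro i; simp
  rw [h1]
  rfl

lemma isUnit_inv {a : O} (ha : IsUnit a) : (a : K)⁻¹ ∈ O := by
  obtain ⟨b, hb⟩ := isUnit_iff_exists_inv.1 ha
  have h1 : (a : K) * b = 1 := congrArg Subtype.val hb
  rw [← eq_inv_of_mul_eq_one_right h1]
  exact b.2

/-- The parameters of a regular local ring are quasi-regular. -/
theorem fra_base [IsRegularLocalRing O] {x : Fin n → O}
    (hx : Ideal.span (Set.range x) = maximalIdeal O)
    (hdim : ((n : ℕ) : WithBot ℕ∞) ≤ ringKrullDim O) :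
    Fra O (residue O) (fun i => (x i : K)) := by
  have hind : Ind x := ind_of_span hx (by rwa [Fintype.card_fin])
  refine ⟨residue_surjective, fun q hq => ?_, fun i => (x i).2, fun q => ?_, ?_⟩
  · apply isUnit_inv
    by_contra h
    exact hq ((residue_eq_zero_iff q).2 ((mem_maximalIdeal q).2 h))
  · rw [residue_eq_zero_iff, ← hx, Ideal.mem_span_range_iff_exists_fun]
    constructor
    · rintro ⟨c, hc⟩
      refine ⟨c, ?_⟩
      rw [← hc]
      push_cast
      rfl
    · rintro ⟨c, hc⟩
      refine ⟨c, Subtype.ext ?_⟩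
      rw [hc]
      push_cast
      rfl
  · intro m E hE h0 γ hγ
    by_contra hlt
    have h1 : Finsupp.degree γ = m := by
      have := (hE.map (residue O)) γ hγ
      omega
    have h2 : eval x E = 0 := by
      rw [ev_coe] at h0
      exact Subtype.ext h0
    have h3 := rees (fun s => span_prime hind s) (fun s a ha => not_mem_span hind s a ha)
      Finset.univ m E (fun γ _ i hi => absurd (Finset.mem_univ i) hi) hE h2 γ h1
    rw [Finset.coe_univ, Set.image_univ, hx] at h3
    rw [coeff_map] at hγ
    exact hγ ((residue_eq_zero_iff _).2 h3)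

/-- The powers of the maximal ideal. -/
lemma inp_base [IsLocalRing O] {x : Fin n → O} (hx : ∀ i, x i ∈ maximalIdeal O) {m : ℕ} {f : O}
    (h : Inp O (fun i => (x i : K)) m f) : f ∈ maximalIdeal O ^ m := by
  obtain ⟨E, hE, he⟩ := h
  rw [ev_coe] at he
  have h1 : f = eval x E := (Subtype.ext he).symm
  rw [h1, eval_eq_sum']
  refine Ideal.sum_mem _ fun γ hγ => Ideal.mul_mem_left _ _ ?_
  have h2 := hE γ (mem_support_iff.1 hγ)
  refine Ideal.pow_le_pow_right h2 ?_
  rw [Finsupp.degree_eq_sum, ← Finset.prod_pow_eq_pow_sum]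
  exact Ideal.prod_mem_prod fun i _ => Ideal.pow_mem_pow (hx i) _

end base

end Pool.Agent.Q40.RP
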