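import Mathlib

/-!
# Almost every sequence of letters contains every finite word infinitely often
-/

set_option autoImplicit false
set_option linter.unusedVariables false
set_option linter.unusedSectionVars false

universe u v

namespace Pool.Agent.Q40.RP

open MeasureTheory

section pat

variable {Γ : Type u} [Fintype Γ] [Nonempty Γ] [MeasurableSpace Γ] [MeasurableSingletonClass Γ]

/-- The probability of an event which depends on finitely many letters. -/
lemma prob_le' {l : ℕ} (W : Finset (Fin l → Γ)) :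
    Measure.infinitePi (fun _ : ℕ => (PMF.uniformOfFintype Γ).toMeasure)
      {ω | (fun i : Fin l => ω i) ∈ W} ≤ (W.card : ENNReal) * ((Fintype.card Γ : ENNReal)⁻¹) ^ l := by
  classical
  let t : (Fin l → Γ) → ℕ → Set Γ := fun w i => if h : i < l then {w ⟨i, h⟩} else Set.univ
  have ht : ∀ w i, MeasurableSet (t w i) := by
    intro w i
    simp only [t]
    split_ifs
    · exact MeasurableSet.singleton _
    · exact MeasurableSet.univ
  have h1 : {ω : ℕ → Γ | (fun i : Fin l => ω i) ∈ W} ⊆
      ⋃ w ∈ W, Set.pi (Finset.range l : Set ℕ) (t w) := by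
    intro ω hω
    simp only [Set.mem_iUnion]
    refine ⟨_, hω, fun i hi => ?_⟩
    have hi' : i < l := Finset.mem_range.1 hi
    simp only [t, dif_pos hi']
    rfl
  refine (measure_mono h1).trans ((measure_biUnion_finset_le W _).trans ?_)
  have h2 : ∀ w ∈ W, Measure.infinitePi (fun _ : ℕ => (PMF.uniformOfFintype Γ).toMeasure)
      (Set.pi (Finset.range l : Set ℕ) (t w)) = ((Fintype.card Γ : ENNReal)⁻¹) ^ l := by
    intro w _
    rw [Measure.infinitePi_pi _ fun i _ => ht w i]
    rw [Finset.prod_congr rfl (g := fun _ => ((Fintype.card Γ : ENNReal)⁻¹))]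
    · rw [Finset.prod_const, Finset.card_range]
    · intro i hi
      have hi' : i < l := Finset.mem_range.1 hi
      simp only [t, dif_pos hi']
      rw [PMF.toMeasure_apply_singleton _ _ (MeasurableSet.singleton _),
        PMF.uniformOfFintype_apply]
  rw [Finset.sum_congr rfl h2, Finset.sum_const, nsmul_eq_mul]

open Classical in
/-- The words none of whose first `l` blocks after the position `N` is `u`. -/
noncomputable def avoid {r : ℕ} (u : Fin r → Γ) (N l L : ℕ) : Finset (Fin L → Γ) :=
  Finset.univ.filter fun w => ∀ i < l, ¬ ∀ t : Fin r, ∀ h : N + r * i + t < L,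
    w ⟨N + r * i + t, h⟩ = u t

lemma card_avoid {r : ℕ} (u : Fin r → Γ) (N : ℕ) : ∀ (l L : ℕ), L = N + r * l →
    (avoid u N l L).card ≤ Fintype.card Γ ^ N * (Fintype.card Γ ^ r - 1) ^ l := by
  classical
  intro l
  induction l with
  | zero =>
    rintro L rfl
    refine (Finset.card_le_univ _).trans (le_of_eq ?_)
    rw [Fintype.card_fun, Fintype.card_fin, pow_zero, mul_one]
  | succ l ih =>
    rintro L hL
    obtain ⟨L', hL'⟩ : ∃ L', L' = N + r * l := ⟨_, rfl⟩
    have hLL : L = L' + r := by rw [hL, hL']; ring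
    subst hLL
    have h1 := ih L' hL'
    have h2 : (avoid u N (l + 1) (L' + r)).card ≤
        ((avoid u N l L') ×ˢ (Finset.univ.erase u)).card := by
      refine Finset.card_le_card_of_injOn (Fin.appendEquiv L' r).symm ?_
        ((Fin.appendEquiv L' r).symm.injective.injOn)
      intro w hw
      obtain ⟨⟨w', v⟩, rfl⟩ := (Fin.appendEquiv L' r).surjective w
      rw [Equiv.symm_apply_apply, Finset.mem_coe, Finset.mem_product]
      have hw : ∀ i < l + 1, ¬ ∀ t : Fin r, ∀ h : N + r * i + t < L' + r,
          (Fin.appendEquiv L' r (w', v)) ⟨N + r * i + t, h⟩ = u t := by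
        simpa [avoid] using hw
      change ∀ i < l + 1, ¬ ∀ t : Fin r, ∀ h : N + r * i + t < L' + r,
          Fin.append w' v ⟨N + r * i + t, h⟩ = u t at hw
      constructor
      · change w' ∈ avoid u N l L'
        unfold avoid
        rw [Finset.mem_filter]
        refine ⟨Finset.mem_univ _, fun i hi hcon => hw i (by omega) fun t h => ?_⟩
        have h3 : N + r * i + t < L' := by
          have h4 : r * i + r ≤ r * l := by
            rw [← Nat.mul_succ]
            exact Nat.mul_le_mul_left _ hi
          have := t.2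
          omega
        have h5 : (⟨N + r * i + t, h⟩ : Fin (L' + r)) = Fin.castAdd r ⟨N + r * i + t, h3⟩ := rfl
        rw [h5, Fin.append_left]
        exact hcon t h3
      · change v ∈ Finset.univ.erase u
        rw [Finset.mem_erase]
        refine ⟨?_, Finset.mem_univ _⟩
        rintro rfl
        refine hw l (by omega) fun t h => ?_
        have h5 : (⟨N + r * l + t, h⟩ : Fin (L' + r)) = Fin.natAdd L' t := by
          apply Fin.ext
          change N + r * l + t = L' + t
          rw [hL']
        rw [h5, Fin.append_right]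
    refine h2.trans ?_
    rw [Finset.card_product, Finset.card_erase_of_mem (Finset.mem_univ _), Finset.card_univ,
      Fintype.card_fun, Fintype.card_fin, pow_succ, ← mul_assoc]
    exact Nat.mul_le_mul_right _ h1

/-- Every finite word occurs after every position, almost surely. -/
theorem ae_pattern {r : ℕ} (u : Fin r → Γ) :
    ∀ᵐ ω : ℕ → Γ ∂(Measure.infinitePi (fun _ : ℕ => (PMF.uniformOfFintype Γ).toMeasure)),
      ∀ N : ℕ, ∃ p, N ≤ p ∧ ∀ t : Fin r, ω (p + t) = u t := by
  classical
  rw [ae_all_iff]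
  intro N
  rw [ae_iff]
  set B : Set (ℕ → Γ) := {ω | ¬ ∃ p, N ≤ p ∧ ∀ t : Fin r, ω (p + t) = u t} with hB
  set c := Fintype.card Γ with hc
  have hc0 : 0 < c := Fintype.card_pos
  have h1 : ∀ l : ℕ, Measure.infinitePi (fun _ : ℕ => (PMF.uniformOfFintype Γ).toMeasure) B ≤
      (((c ^ r - 1 : ℕ) : ENNReal) * ((c ^ r : ℕ) : ENNReal)⁻¹) ^ l := by
    intro l
    have h2 : B ⊆ {ω | (fun i : Fin (N + r * l) => ω i) ∈ avoid u N l (N + r * l)} := by
      intro ω hω
      change (fun i : Fin (N + r * l) => ω i) ∈ avoid u N l (N + r * l)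
      unfold avoid
      rw [Finset.mem_filter]
      refine ⟨Finset.mem_univ _, fun i hi hcon => hω ⟨N + r * i, Nat.le_add_right _ _, fun t => ?_⟩⟩
      refine hcon t ?_
      have h4 : r * i + r ≤ r * l := by
        rw [← Nat.mul_succ]
        exact Nat.mul_le_mul_left _ hi
      have := t.2
      omega
    refine (measure_mono h2).trans ((prob_le' _).trans ?_)
    have h3 : ((avoid u N l (N + r * l)).card : ENNReal) ≤
        (c : ENNReal) ^ N * ((c ^ r - 1 : ℕ) : ENNReal) ^ l := by
      exact_mod_cast card_avoid u N l (N + r * l) rfl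
    refine (mul_le_mul_left h3 _).trans (le_of_eq ?_)
    have hc1 : (c : ENNReal) ≠ 0 := by exact_mod_cast hc0.ne'
    have hc2 : (c : ENNReal) ≠ ⊤ := ENNReal.natCast_ne_top _
    rw [mul_pow, pow_add, Nat.cast_pow]
    calc (c : ENNReal) ^ N * ((c ^ r - 1 : ℕ) : ENNReal) ^ l *
          ((c : ENNReal)⁻¹ ^ N * (c : ENNReal)⁻¹ ^ (r * l))
        = ((c : ENNReal) * (c : ENNReal)⁻¹) ^ N * (((c ^ r - 1 : ℕ) : ENNReal) ^ l *
          ((c : ENNReal)⁻¹ ^ (r * l))) := by ring
      _ = ((c ^ r - 1 : ℕ) : ENNReal) ^ l * (((c : ENNReal) ^ r)⁻¹) ^ l := by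
          rw [ENNReal.mul_inv_cancel hc1 hc2, one_pow, one_mul, pow_mul, ENNReal.inv_pow]
  have h2 : ((c ^ r - 1 : ℕ) : ENNReal) * ((c ^ r : ℕ) : ENNReal)⁻¹ < 1 := by
    have h3 : 0 < c ^ r := pow_pos hc0 r
    rw [← div_eq_mul_inv, ENNReal.div_lt_iff]
    · rw [one_mul]
      exact_mod_cast (by omega : c ^ r - 1 < c ^ r)
    · left
      exact_mod_cast h3.ne'
    · left
      exact ENNReal.natCast_ne_top _
  have h3 := ENNReal.tendsto_pow_atTop_nhds_zero_of_lt_one h2
  exact le_antisymm (ge_of_tendsto' h3 h1) bot_le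

end pat

end Pool.Agent.Q40.RP
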