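import Pool.Agent.H59.L.T97aac3.Q40.RP.Gp

/-!
# Almost all branches are good
-/

set_option autoImplicit false
set_option linter.unusedVariables false
set_option linter.unusedSectionVars false

universe u v

namespace Pool.Agent.Q40.RP

open MeasureTheory

section prob

variable {Γ : Type u} [Fintype Γ] [Nonempty Γ] [MeasurableSpace Γ] [MeasurableSingletonClass Γ]

/-- The probability of an event which depends on finitely many letters. -/
lemma prob_le {l : ℕ} (W : Finset (Fin l → Γ)) :
    Measure.infinitePi (fun _ : ℕ => (PMF.uniformOfFintype Γ).toMeasure)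
      {ω | (fun i : Fin l => ω i) ∈ W} ≤ (W.card : ENNReal) * ((Fintype.card Γ : ENNReal)⁻¹) ^ l := by
  classical
  let t : (Fin l → Γ) → ℕ → Set Γ := fun w i => if h : i < l then {w ⟨i, h⟩} else Set.univ
  have ht : ∀ w i, MeasurableSet (t w i) := by
    intro w i
    simp only [t]
    split_ifs
    · exact MeasurableSet.singleton _
    · exact MeasurableSet.univ
  have h1 : {ω : ℕ → Γ | (fun i : Fin l => ω i) ∈ W} ⊆
      ⋃ w ∈ W, Set.pi (Finset.range l : Set ℕ) (t w) := by
    intro ω hω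
    simp only [Set.mem_iUnion]
    refine ⟨_, hω, fun i hi => ?_⟩
    have hi' : i < l := Finset.mem_range.1 hi
    simp only [t, dif_pos hi']
    rfl
  refine (measure_mono h1).trans ((measure_biUnion_finset_le W _).trans ?_)
  have h2 : ∀ w ∈ W, Measure.infinitePi (fun _ : ℕ => (PMF.uniformOfFintype Γ).toMeasure)
      (Set.pi (Finset.range l : Set ℕ) (t w)) = ((Fintype.card Γ : ENNReal)⁻¹) ^ l := by
    intro w _
    rw [Measure.infinitePi_pi _ fun i _ => ht w i]
    rw [Finset.prod_congr rfl (g := fun _ => ((Fintype.card Γ : ENNReal)⁻¹))]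
    · rw [Finset.prod_const, Finset.card_range]
    · intro i hi
      have hi' : i < l := Finset.mem_range.1 hi
      simp only [t, dif_pos hi']
      rw [PMF.toMeasure_apply_singleton _ _ (MeasurableSet.singleton _),
        PMF.uniformOfFintype_apply]
  rw [Finset.sum_congr rfl h2, Finset.sum_const, nsmul_eq_mul]

/-- Events of exponentially small probability. -/
lemma prob_zero {m b : ℕ} (hb : b < Fintype.card Γ) {B : Set (ℕ → Γ)}
    (W : ∀ l : ℕ, Finset (Fin l → Γ)) (hW : ∀ l, (W l).card ≤ m * b ^ l)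
    (hB : ∀ l, ∀ ω ∈ B, (fun i : Fin l => ω i) ∈ W l) :
    Measure.infinitePi (fun _ : ℕ => (PMF.uniformOfFintype Γ).toMeasure) B = 0 := by
  have h1 : ∀ l : ℕ, Measure.infinitePi (fun _ : ℕ => (PMF.uniformOfFintype Γ).toMeasure) B ≤
      (m : ENNReal) * ((b : ENNReal) * (Fintype.card Γ : ENNReal)⁻¹) ^ l := by
    intro l
    refine (measure_mono (hB l)).trans ((prob_le (W l)).trans ?_)
    rw [mul_pow, ← mul_assoc]
    refine mul_le_mul_left ?_ _
    exact_mod_cast hW l
  have h2 : (b : ENNReal) * (Fintype.card Γ : ENNReal)⁻¹ < 1 := by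
    rw [← div_eq_mul_inv, ENNReal.div_lt_iff]
    · rw [one_mul]
      exact_mod_cast hb
    · left
      exact_mod_cast (Fintype.card_pos (α := Γ)).ne'
    · left
      exact ENNReal.natCast_ne_top _
  have h3 := ENNReal.Tendsto.const_mul (a := (m : ENNReal))
    (ENNReal.tendsto_pow_atTop_nhds_zero_of_lt_one h2) (Or.inr (ENNReal.natCast_ne_top m))
  rw [mul_zero] at h3
  exact le_antisymm (ge_of_tendsto' h3 h1) bot_le

end prob

section ae

variable {K : Type u} [Field K] {k : Type v} [Field k] {n : ℕ}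
  {O : Subring K} {ρ0 : O →+* k} {S : Finset O} {piv : (Fin n → O) → Fin n}
  (hd : Dat O ρ0 S piv) (hn : 1 ≤ n) (hS : 2 ≤ S.card)

include hd hn hS

lemma card_lt : S.card ^ (n - 1) - 1 < Fintype.card (Lt n S) := by
  rw [card_Lt hd.zero]
  obtain ⟨n, rfl⟩ := Nat.exists_eq_add_of_le' hn
  rw [Nat.add_sub_cancel]
  have h1 : 1 ≤ S.card ^ n := Nat.one_le_pow _ _ (by omega)
  have h2 : S.card ^ n * 2 ≤ S.card ^ (n + 1) := by
    rw [pow_succ]
    exact Nat.mul_le_mul_left _ hS
  omega

lemma nonempty_Lt : Nonempty (Lt n S) := by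
  have h1 := card_lt hd hn hS
  exact Fintype.card_pos_iff.1 (by omega)

/-- Almost all branches principalize a given ideal. -/
theorem ae_pr [MeasurableSpace (Lt n S)] [MeasurableSingletonClass (Lt n S)] [Nonempty (Lt n S)]
    {s0 : Sta K n} (h0 : Gd O ρ0 s0) {J : Set K} (hJ : ∀ g ∈ J, g ∈ s0.1) {f : K} (hf : f ∈ J)
    {μ : ℕ} (hμ : ¬ Inp s0.1 s0.2 (μ + 1) f) :
    ∀ᵐ ω : ℕ → Lt n S ∂(Measure.infinitePi (fun _ : ℕ =>
      (PMF.uniformOfFintype (Lt n S)).toMeasure)),
      ∃ l, Pr (sq piv s0 (fun l => (ω l).1) l) J := by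
  classical
  rw [ae_iff]
  refine prob_zero (m := μ) (b := S.card ^ (n - 1) - 1) (card_lt hd hn hS)
    (fun l => Finset.univ.filter fun w : Fin l → Lt n S =>
      ¬ Pr (run piv s0 (List.ofFn fun i => (w i).1)) J) (fun l => ?_) (fun l ω hω => ?_)
  · have h1 := bad_le hd hn l s0 h0 J hJ f hf μ hμ
    refine le_trans (le_of_eq ?_) h1
    unfold bad
    rw [Finset.card_filter]
    refine Finset.sum_congr rfl fun w _ => ?_
    split_ifs <;> rfl
  · rw [Finset.mem_filter]
    refine ⟨Finset.mem_univ _, fun hcon => hω ⟨l, ?_⟩⟩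
    rw [sq_eq]
    exact hcon

end ae

end Pool.Agent.Q40.RP
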