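import Pool.Agent.H59.L.T97aac3.Q40.RP.Drop
import Pool.Agent.H59.L.T97aac3.Q40.RP.Prob
import Pool.Agent.H59.L.T97aac3.Q40.RP.Pat

/-!
# Properties of the valuation ring of a branch
-/

set_option autoImplicit false
set_option linter.unusedVariables false
set_option linter.unusedSectionVars false

universe u v

namespace Pool.Agent.Q40.RP

open MvPolynomial IsLocalRing Pool.Agent.W418.LU2 Pool.Agent.TH188.QS

section extra

variable {K : Type u} [Field K] {k : Type v} [Field k] {n : ℕ}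
  {O : Subring K} {ρ0 : O →+* k} {S : Finset O} {piv : (Fin n → O) → Fin n}
  {ω : ℕ → Fin n → O} (hd : Dat O ρ0 S piv) (hω : ∀ l, IsLt S (ω l)) {s0 : Sta K n}
  (h0 : Gd O ρ0 s0) {V : ValuationSubring K}
  (hV : ∀ z, z ∈ V ↔ ∃ l, z ∈ (sq piv s0 ω l).1)

include hd hω h0 hV

lemma sq_val_lt (l : ℕ) (i : Fin n) : V.valuation ((sq piv s0 ω l).2 i) < 1 :=
  nu_iff.1 fun h => sq_nu hd hω h0 hV l i h.2

/-- The residue field. -/
theorem sq_residue (hs : Function.Surjective ρ0) : ∀ z ∈ V, ∃ a : O, V.valuation (z - a) < 1 := by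
  intro z hz
  obtain ⟨l, hl⟩ := (hV z).1 hz
  obtain ⟨a, c, h1⟩ := (sq_gd hd hω h0 l).res hs hl
  refine ⟨a, ?_⟩
  rw [h1, add_sub_cancel_left]
  refine V.valuation.map_sum_lt one_ne_zero fun i _ => ?_
  rw [map_mul]
  have h2 := (V.valuation_le_one_iff _).2 (sq_le hd hω h0 hV l (c i).2)
  calc V.valuation (c i : K) * V.valuation ((sq piv s0 ω l).2 i)
      ≤ 1 * V.valuation ((sq piv s0 ω l).2 i) := mul_le_mul_left h2 _
    _ = V.valuation ((sq piv s0 ω l).2 i) := one_mul _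
    _ < 1 := sq_val_lt hd hω h0 hV l i

/-- The pivot has the minimal value. -/
lemma sq_le_piv (l : ℕ) (i : Fin n) : V.valuation ((sq piv s0 ω l).2 i) ≤
    V.valuation ((sq piv s0 ω l).2 (piv (ω l))) := by
  have hmi := sq_mi hd hω h0 hV l
  have h1 := hmi.min ((sq piv s0 ω l).2 i) ((sq_gd hd hω h0 l).nu i).1
    (nu_iff.2 (sq_val_lt hd hω h0 hV l i))
  have h2 := (V.valuation_le_one_iff _).2 h1
  rw [map_mul, map_inv₀] at h2
  have h3 : 0 < V.valuation ((sq piv s0 ω l).2 (piv (ω l))) :=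
    zero_lt_iff.2 ((map_ne_zero _).2 hmi.ne)
  calc V.valuation ((sq piv s0 ω l).2 i)
      = V.valuation ((sq piv s0 ω l).2 i) * (V.valuation ((sq piv s0 ω l).2 (piv (ω l))))⁻¹ *
        V.valuation ((sq piv s0 ω l).2 (piv (ω l))) := by
          rw [mul_assoc, inv_mul_cancel₀ h3.ne', mul_one]
    _ ≤ 1 * V.valuation ((sq piv s0 ω l).2 (piv (ω l))) := mul_le_mul_left h2 _
    _ = _ := one_mul _

/-- All coordinates nonzero. -/
lemma sq_eq_piv (l : ℕ) (i : Fin n) (hi : ω l i ≠ 0) : V.valuation ((sq piv s0 ω l).2 i) =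
    V.valuation ((sq piv s0 ω l).2 (piv (ω l))) := by
  apply le_antisymm (sq_le_piv hd hω h0 hV l i)
  by_cases hij : i = piv (ω l)
  · rw [hij]
  by_contra hlt
  rw [not_le] at hlt
  -- then the next coordinate is a unit
  have h1 : (sq piv s0 ω (l + 1)).2 i = (sq piv s0 ω l).2 i / (sq piv s0 ω l).2 (piv (ω l)) -
      (ω l i : K) / (ω l (piv (ω l)) : K) := by
    change stp (piv (ω l)) (fun i => (ω l i : K)) (sq piv s0 ω l).2 i = _
    unfold stp
    rw [if_neg hij]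
  have h2 := sq_val_lt hd hω h0 hV (l + 1) i
  have h3 : V.valuation ((sq piv s0 ω l).2 i / (sq piv s0 ω l).2 (piv (ω l))) < 1 := by
    rw [map_div₀]
    have h4 : 0 < V.valuation ((sq piv s0 ω l).2 (piv (ω l))) :=
      zero_lt_iff.2 ((map_ne_zero _).2 ((sq_gd hd hω h0 l).nu _).2.1)
    rwa [div_lt_one₀ h4]
  have h5 : V.valuation ((ω l i : K) / (ω l (piv (ω l)) : K)) < 1 := by
    have h6 : (ω l i : K) / (ω l (piv (ω l)) : K) =
        (sq piv s0 ω l).2 i / (sq piv s0 ω l).2 (piv (ω l)) - (sq piv s0 ω (l + 1)).2 i := by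
      rw [h1]; ring
    rw [h6]
    exact lt_of_le_of_lt (V.valuation.map_sub _ _) (max_lt h3 h2)
  have hun : ∀ j, ω l j ≠ 0 → V.valuation (ω l j : K) = 1 := by
    intro j hj
    have h6 : ρ0 (ω l j) ≠ 0 := by
      intro h7
      exact hj (hd.inj ((hω l).1 j) hd.zero (by rw [h7, map_zero]))
    obtain ⟨hO, -⟩ := id h0
    have h7 : (ω l j : K) ∈ V := sq_le hd hω h0 hV 0 (hO (ω l j).2)
    have h8 : (ω l j : K)⁻¹ ∈ V := sq_le hd hω h0 hV 0 (hO (hd.unit _ h6))
    have h9 : (ω l j : K) ≠ 0 := fun h => hj (Subtype.ext h)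
    apply le_antisymm ((V.valuation_le_one_iff _).2 h7)
    have h10 := (V.valuation_le_one_iff _).2 h8
    rw [map_inv₀] at h10
    rwa [inv_le_one₀ (zero_lt_iff.2 ((map_ne_zero _).2 h9))] at h10
  rw [map_div₀, hun i hi, hun _ (hd.piv _ (hω l).2), div_one] at h5
  exact lt_irrefl _ h5

/-- Rational rank one. -/
theorem sq_comm (hmo : ∀ z : K, z ≠ 0 → ∃ l, PMon (sq piv s0 ω l).1 (sq piv s0 ω l).2 z)
    (hinf : ∀ N, ∃ l, N ≤ l ∧ ∀ i, ω l i ≠ 0) (x y : K) (hx : x ≠ 0) (hy : y ≠ 0)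
    (hx1 : V.valuation x < 1) (hy1 : V.valuation y < 1) :
    ∃ a b : ℕ, 0 < a ∧ 0 < b ∧ V.valuation (x ^ a) = V.valuation (y ^ b) := by
  classical
  have hmono := sq_mono (piv := piv) (s0 := s0) (ω := ω)
  have hpm : ∀ {l l' : ℕ}, l ≤ l' → ∀ z, PMon (sq piv s0 ω l).1 (sq piv s0 ω l).2 z →
      PMon (sq piv s0 ω l').1 (sq piv s0 ω l').2 z := by
    intro l l' hl z hz
    refine PMon.of_gen (fun i => (sq_gd hd hω h0 l').nu i |>.2.1) (hmono hl) (fun i => ?_) hz
    exact (sq_mo hd hω h0 hl (Mo.self _ _ i)).pmon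
  obtain ⟨l1, h1⟩ := hmo x hx
  obtain ⟨l2, h2⟩ := hmo y hy
  obtain ⟨l, hl, hnz⟩ := hinf (max l1 l2)
  have h1 := hpm (le_trans (le_max_left _ _) hl) x h1
  have h2 := hpm (le_trans (le_max_right _ _) hl) y h2
  set g := V.valuation ((sq piv s0 ω l).2 (piv (ω l))) with hg
  have hg1 : g < 1 := sq_val_lt hd hω h0 hV l _
  have hg0 : g ≠ 0 := (map_ne_zero _).2 ((sq_gd hd hω h0 l).nu _).2.1
  have key : ∀ z : K, PMon (sq piv s0 ω l).1 (sq piv s0 ω l).2 z → V.valuation z < 1 →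
      ∃ a : ℕ, 0 < a ∧ V.valuation z = g ^ a := by
    rintro z ⟨u, u0, u1, u2, δ, rfl⟩ hz
    have hu : V.valuation u = 1 := by
      apply le_antisymm ((V.valuation_le_one_iff _).2 (sq_le hd hω h0 hV l u1))
      have h10 := (V.valuation_le_one_iff _).2 (sq_le hd hω h0 hV l u2)
      rw [map_inv₀] at h10
      rwa [inv_le_one₀ (zero_lt_iff.2 ((map_ne_zero _).2 u0))] at h10
    have hmoz : V.valuation (u * mo (sq piv s0 ω l).2 δ) = g ^ (∑ i, δ i) := by
      rw [map_mul, hu, one_mul]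
      unfold mo
      rw [map_prod]
      have h3 : ∀ i ∈ Finset.univ, V.valuation ((sq piv s0 ω l).2 i ^ δ i) = g ^ δ i := by
        intro i _
        rw [map_zpow₀, sq_eq_piv hd hω h0 hV l i (hnz i)]
      rw [Finset.prod_congr rfl h3]
      have h4 : ∀ s : Finset (Fin n), ∏ i ∈ s, g ^ δ i = g ^ (∑ i ∈ s, δ i) := by
        intro s
        induction s using Finset.induction_on with
        | empty => simp
        | insert a s ha ih => rw [Finset.prod_insert ha, Finset.sum_insert ha, ih, zpow_add₀ hg0]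
      exact h4 _
    rw [hmoz] at hz ⊢
    rcases lt_or_ge 0 (∑ i, δ i) with h5 | h5
    · obtain ⟨a, ha⟩ := Int.eq_ofNat_of_zero_le h5.le
      refine ⟨a, by omega, ?_⟩
      rw [ha, zpow_natCast]
    · exfalso
      obtain ⟨a, ha⟩ := Int.eq_ofNat_of_zero_le (Int.neg_nonneg.2 h5)
      have h6 : (∑ i, δ i) = -(a : ℤ) := by omega
      rw [h6, zpow_neg, zpow_natCast] at hz
      have h7 : g ^ a ≤ 1 := pow_le_one₀ zero_le hg1.le
      have h8 : (0 : V.ValueGroup) < g ^ a := zero_lt_iff.2 (pow_ne_zero _ hg0)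
      rw [inv_lt_one₀ h8] at hz
      exact absurd hz (not_lt.2 h7)
  obtain ⟨a, ha, hxa⟩ := key x h1 hx1
  obtain ⟨b, hb, hyb⟩ := key y h2 hy1
  refine ⟨b, a, hb, ha, ?_⟩
  rw [map_pow, map_pow, hxa, hyb, ← pow_mul, ← pow_mul, mul_comm]

/-- No smallest positive value. -/
theorem sq_nd (hn : 2 ≤ n) {a : O} (ha : a ≠ 0)
    (hpat : ∀ N, ∃ p, N ≤ p ∧ ∀ t : Fin n, ω (p + t) = Pi.single t a) (x : K) (hx : x ≠ 0)
    (hx1 : V.valuation x < 1) : ∃ y : K, V.valuation x < V.valuation y ∧ V.valuation y < 1 := by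
  classical
  by_contra hcon
  push Not at hcon
  have hmax : ∀ y : K, V.valuation y < 1 → V.valuation y ≤ V.valuation x := by
    intro y hy
    by_contra h1
    rw [not_le] at h1
    exact absurd hy (not_lt.2 (hcon y h1))
  obtain ⟨l0, hl0⟩ := (hV x).1 ((V.valuation_le_one_iff x).1 hx1.le)
  have hmono := sq_mono (piv := piv) (s0 := s0) (ω := ω)
  have key : ∀ l, l0 ≤ l → V.valuation ((sq piv s0 ω l).2 (piv (ω l))) = V.valuation x := by
    intro l hl
    apply le_antisymm (hmax _ (sq_val_lt hd hω h0 hV l _))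
    have h1 : x ∈ (sq piv s0 ω l).1 := hmono hl hl0
    obtain ⟨c, hc⟩ := (sq_gd hd hω h0 l).comb h1 (by
      by_contra h2
      push Not at h2
      exact (nu_iff.2 hx1) ⟨h2.1, sq_le hd hω h0 hV l h2.2⟩)
    rw [hc]
    refine V.valuation.map_sum_le fun i _ => ?_
    rw [map_mul]
    have h2 := (V.valuation_le_one_iff _).2 (sq_le hd hω h0 hV l (c i).2)
    calc V.valuation (c i : K) * V.valuation ((sq piv s0 ω l).2 i)
        ≤ 1 * V.valuation ((sq piv s0 ω l).2 i) := mul_le_mul_left h2 _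
      _ = V.valuation ((sq piv s0 ω l).2 i) := one_mul _
      _ ≤ _ := sq_le_piv hd hω h0 hV l i
  obtain ⟨p, hp, hpu⟩ := hpat l0
  let t0 : Fin n := ⟨0, by omega⟩
  let t1 : Fin n := ⟨1, by omega⟩
  have h1 := hpu t0
  have h2 := hpu t1
  change ω (p + 0) = Pi.single t0 a at h1
  change ω (p + 1) = Pi.single t1 a at h2
  rw [add_zero] at h1
  have hp1 : piv (ω p) = t0 := by rw [h1, hd.piv_single ha]
  have hp2 : piv (ω (p + 1)) = t1 := by rw [h2, hd.piv_single ha]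
  have h3 := key p hp
  have h4 := key (p + 1) (by omega)
  rw [hp1] at h3
  rw [hp2] at h4
  have h5 : (sq piv s0 ω (p + 1)).2 t0 = (sq piv s0 ω p).2 t0 := by
    change stp (piv (ω p)) (fun i => (ω p i : K)) (sq piv s0 ω p).2 t0 = _
    unfold stp
    rw [hp1, if_pos rfl]
  have h01 : t0 ≠ t1 := by
    intro h
    have := congrArg Fin.val h
    simp [t0, t1] at this
  have h6 : (sq piv s0 ω (p + 1 + 1)).2 t0 =
      (sq piv s0 ω (p + 1)).2 t0 / (sq piv s0 ω (p + 1)).2 t1 := by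
    change stp (piv (ω (p + 1))) (fun i => (ω (p + 1) i : K)) (sq piv s0 ω (p + 1)).2 t0 = _
    unfold stp
    rw [hp2, if_neg h01, h2]
    dsimp only
    rw [Pi.single_eq_of_ne h01, ZeroMemClass.coe_zero, zero_div, sub_zero]
  have h7 := sq_val_lt hd hω h0 hV (p + 1 + 1) t0
  rw [h6, map_div₀, h5, h3, h4, div_self ((map_ne_zero _).2 hx)] at h7
  exact lt_irrefl _ h7

end extra

end Pool.Agent.Q40.RP
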