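import Pool.Agent.H59.L.T97aac3.Q40.RP.SZ

/-!
# Quasi-regular systems of parameters and their blowing-up
-/

set_option autoImplicit false
set_option linter.unusedVariables false
set_option linter.unusedSectionVars false

universe u v

namespace Pool.Agent.Q40.RP

open MvPolynomial

section gen

variable {K : Type u} [Field K] {k : Type v} [Field k] {n : ℕ}

/-- Evaluation. -/
noncomputable def ev (Q : Subring K) (x : Fin n → K) : MvPolynomial (Fin n) Q →+* K :=
  eval₂Hom Q.subtype x

@[simp] lemma ev_C (Q : Subring K) (x : Fin n → K) (c : Q) : ev Q x (C c) = c := by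
  simp [ev]

@[simp] lemma ev_X (Q : Subring K) (x : Fin n → K) (i : Fin n) : ev Q x (X i) = x i := by
  simp [ev]

lemma ev_monomial (Q : Subring K) (x : Fin n → K) (γ : Fin n →₀ ℕ) (c : Q) :
    ev Q x (monomial γ c) = (c : K) * ∏ i, x i ^ γ i := by
  unfold ev
  rw [coe_eval₂Hom, eval₂_monomial, Finsupp.prod_fintype _ _ fun i => pow_zero _]
  rfl

lemma ev_sum (Q : Subring K) (x : Fin n → K) (E : MvPolynomial (Fin n) Q) :
    ev Q x E = ∑ γ ∈ E.support, ((coeff γ E : Q) : K) * ∏ i, x i ^ γ i := by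
  conv_lhs => rw [← E.support_sum_monomial_coeff, map_sum]
  exact Finset.sum_congr rfl fun γ _ => ev_monomial Q x γ _

lemma ev_mem {Q : Subring K} {x : Fin n → K} (hx : ∀ i, x i ∈ Q) (E : MvPolynomial (Fin n) Q) :
    ev Q x E ∈ Q := by
  rw [ev_sum]
  exact Q.sum_mem fun γ _ => Q.mul_mem (coeff γ E).2
    (Q.prod_mem fun i _ => Q.pow_mem (hx i) _)

lemma ev_bind (Q : Subring K) (x : Fin n → K) (L : Fin n → MvPolynomial (Fin n) Q)
    (E : MvPolynomial (Fin n) Q) : ev Q x (bind₁ L E) = ev Q (fun i => ev Q x (L i)) E := by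
  have h1 : (ev Q x).comp (bind₁ L : MvPolynomial (Fin n) Q →+* MvPolynomial (Fin n) Q) =
      ev Q (fun i => ev Q x (L i)) := by
    apply MvPolynomial.ringHom_ext
    · intro r; simp
    · intro i; simp
  exact DFunLike.congr_fun h1 E

/-- Quasi-regular systems of parameters, where `ρ` is the reduction modulo the maximal ideal. -/
structure Fra (Q : Subring K) (ρ : Q →+* k) (x : Fin n → K) : Prop where
  surj : Function.Surjective ρ
  inv : ∀ q : Q, ρ q ≠ 0 → (q : K)⁻¹ ∈ Q
  mem : ∀ i, x i ∈ Q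
  ker : ∀ q : Q, ρ q = 0 ↔ ∃ c : Fin n → Q, (q : K) = ∑ i, (c i : K) * x i
  qr : ∀ (m : ℕ) (E : MvPolynomial (Fin n) Q), Low m E → ev Q x E = 0 → Low (m + 1) (map ρ E)

/-- The powers of the ideal generated by the parameters. -/
def Inp (Q : Subring K) (x : Fin n → K) (m : ℕ) (f : K) : Prop :=
  ∃ E : MvPolynomial (Fin n) Q, Low m E ∧ ev Q x E = f

lemma Inp.zero {Q : Subring K} {x : Fin n → K} {f : K} (hf : f ∈ Q) : Inp Q x 0 f :=
  ⟨C ⟨f, hf⟩, low_zero _, ev_C _ _ _⟩

variable {Q : Subring K} {ρ : Q →+* k} {x : Fin n → K}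

lemma Fra.ne (h : Fra Q ρ x) (i : Fin n) : x i ≠ 0 := by
  intro h0
  have h1 := h.qr 1 (X i) (Low.X i) (by rw [ev_X, h0])
  rw [map_X] at h1
  have h2 := h1 (Finsupp.single i 1) (by
    classical
    rw [coeff_X, if_pos rfl]
    exact (one_ne_zero : (1 : k) ≠ 0))
  rw [Finsupp.degree_single] at h2
  omega

lemma Fra.rho_x (h : Fra Q ρ x) (i : Fin n) : ρ ⟨x i, h.mem i⟩ = 0 := by
  classical
  rw [h.ker]
  refine ⟨Pi.single i 1, ?_⟩
  rw [Finset.sum_eq_single i]
  · rw [Pi.single_eq_same]
    simp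
  · intro l _ hl
    rw [Pi.single_eq_of_ne hl]
    simp
  · intro hi
    exact absurd (Finset.mem_univ _) hi

/-- Coefficients in the kernel. -/
lemma Fra.inp_succ (h : Fra Q ρ x) {m : ℕ} {F : MvPolynomial (Fin n) Q} (hF : Low m F)
    (h0 : ∀ γ, Finsupp.degree γ = m → ρ (coeff γ F) = 0) : Inp Q x (m + 1) (ev Q x F) := by
  classical
  have hd : ∀ γ, ∃ c : Fin n → Q, Finsupp.degree γ = m →
      ((coeff γ F : Q) : K) = ∑ i, (c i : K) * x i := by
    intro γ
    by_cases hγ : Finsupp.degree γ = m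
    · obtain ⟨c, hc⟩ := (h.ker _).1 (h0 γ hγ)
      exact ⟨c, fun _ => hc⟩
    · exact ⟨0, fun h => absurd h hγ⟩
  choose d hd using hd
  refine ⟨∑ γ ∈ F.support, (if Finsupp.degree γ = m then ∑ i, C (d γ i) * X i
    else C (coeff γ F)) * monomial γ 1, ?_, ?_⟩
  · refine Low.sum _ fun γ hγ => ?_
    have h1 := hF γ (mem_support_iff.1 hγ)
    split_ifs with h2
    · have h3 : Low 1 (∑ i, C (d γ i) * X i : MvPolynomial (Fin n) Q) :=
        Low.sum _ fun i _ => (Low.X i).mul_left _
      have h4 := h3.mul (Low.monomial (R := Q) h1 1)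
      rwa [add_comm] at h4
    · refine Low.mul_left ?_ _
      exact Low.monomial (by omega) 1
  · rw [map_sum, ev_sum]
    refine Finset.sum_congr rfl fun γ _ => ?_
    rw [map_mul, ev_monomial, OneMemClass.coe_one, one_mul]
    congr 1
    split_ifs with h2
    · rw [hd γ h2, map_sum]
      exact Finset.sum_congr rfl fun i _ => by rw [map_mul, ev_C, ev_X]
    · rw [ev_C]

/-- The order. -/
lemma Fra.exists_order (h : Fra Q ρ x) {f : K} (hf : f ∈ Q) {μ : ℕ} (hμ : ¬ Inp Q x (μ + 1) f) :
    ∃ m ≤ μ, Inp Q x m f ∧ ¬ Inp Q x (m + 1) f := by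
  classical
  have hex : ∃ l, ¬ Inp Q x l f := ⟨_, hμ⟩
  have h1 := Nat.find_spec hex
  have h2 : Nat.find hex ≤ μ + 1 := Nat.find_min' hex hμ
  have h3 : Nat.find hex ≠ 0 := by
    intro h0
    rw [h0] at h1
    exact h1 (Inp.zero hf)
  obtain ⟨m, hm⟩ := Nat.exists_eq_succ_of_ne_zero h3
  rw [Nat.succ_eq_add_one] at hm
  refine ⟨m, by omega, ?_, ?_⟩
  · by_contra h4
    exact Nat.find_min hex (m := m) (by omega) h4
  · rw [← hm]
    exact h1

lemma Inp.mono {m l : ℕ} {f : K} (h : Inp Q x m f) (hl : l ≤ m) : Inp Q x l f := by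
  obtain ⟨E, hE, he⟩ := h
  exact ⟨E, hE.mono hl, he⟩

/-- The linear substitution. -/
noncomputable def Ls {R : Type v} [CommRing R] (j : Fin n) (a : Fin n → R) (i : Fin n) :
    MvPolynomial (Fin n) R := X i + C (a i) * X j

lemma Ls_low {R : Type v} [CommRing R] (j : Fin n) (a : Fin n → R) (i : Fin n) :
    Low 1 (Ls j a i) := (Low.X i).add ((Low.X j).mul_left _)

lemma Ls_bind {R : Type v} [CommRing R] {j : Fin n} {a : Fin n → R} (ha : a j = 0)
    (E : MvPolynomial (Fin n) R) : bind₁ (Ls j (-a)) (bind₁ (Ls j a) E) = E := by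
  have h1 : (bind₁ (Ls j (-a))).comp (bind₁ (Ls j a)) = AlgHom.id R _ := by
    apply MvPolynomial.algHom_ext
    intro i
    simp [Ls, ha]
  exact DFunLike.congr_fun h1 E

lemma Ls_bind' {R : Type v} [CommRing R] {j : Fin n} {a : Fin n → R} (ha : a j = 0)
    (E : MvPolynomial (Fin n) R) : bind₁ (Ls j a) (bind₁ (Ls j (-a)) E) = E := by
  have h1 := Ls_bind (a := -a) (j := j) (by rw [Pi.neg_apply, ha, neg_zero]) E
  rwa [neg_neg] at h1

lemma map_bind {R : Type u} {S : Type v} [CommRing R] [CommRing S] (f : R →+* S)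
    (L : Fin n → MvPolynomial (Fin n) R) (E : MvPolynomial (Fin n) R) :
    map f (bind₁ L E) = bind₁ (fun i => map f (L i)) (map f E) := by
  have h1 : (map f).comp (bind₁ L : MvPolynomial (Fin n) R →+* MvPolynomial (Fin n) R) =
      (bind₁ (fun i => map f (L i)) : MvPolynomial (Fin n) S →+* MvPolynomial (Fin n) S).comp
        (map f) := by
    apply MvPolynomial.ringHom_ext
    · intro r; simp
    · intro i; simp
  exact DFunLike.congr_fun h1 E

lemma map_Ls {R : Type u} {S : Type v} [CommRing R] [CommRing S] (f : R →+* S) (j : Fin n)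
    (a : Fin n → R) : (fun i => map f (Ls j a i)) = Ls j (fun i => f (a i)) := by
  funext i
  simp [Ls]

/-- The linear change of the parameters. -/
theorem Fra.lin (h : Fra Q ρ x) {j : Fin n} {a : Fin n → Q} (ha : a j = 0) :
    Fra Q ρ (fun i => x i - a i * x j) := by
  classical
  refine ⟨h.surj, h.inv, fun i => Q.sub_mem (h.mem i) (Q.mul_mem (a i).2 (h.mem j)), ?_, ?_⟩
  · intro q
    rw [h.ker]
    constructor
    · rintro ⟨c, hc⟩
      refine ⟨Function.update c j (c j + ∑ i, c i * a i), ?_⟩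
      rw [hc, ← Finset.add_sum_erase _ _ (Finset.mem_univ j),
        ← Finset.add_sum_erase (s := Finset.univ) (f := fun i =>
          ((Function.update c j (c j + ∑ i, c i * a i) i : Q) : K) * (x i - a i * x j))
          (h := Finset.mem_univ j), Function.update_self, ha]
      have h1 : ∑ i ∈ Finset.univ.erase j,
          ((Function.update c j (c j + ∑ i, c i * a i) i : Q) : K) * (x i - a i * x j) =
          ∑ i ∈ Finset.univ.erase j, (c i : K) * x i -
            (∑ i ∈ Finset.univ.erase j, (c i : K) * a i) * x j := by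
        rw [Finset.sum_mul, ← Finset.sum_sub_distrib]
        refine Finset.sum_congr rfl fun i hi => ?_
        rw [Function.update_of_ne (Finset.ne_of_mem_erase hi)]
        ring
      have h2 : ((∑ i, c i * a i : Q) : K) = ∑ i ∈ Finset.univ.erase j, (c i : K) * a i := by
        rw [← Finset.add_sum_erase _ _ (Finset.mem_univ j), ha, mul_zero, zero_add]
        push_cast
        rfl
      rw [h1]
      push_cast at h2 ⊢
      rw [h2]
      ring
    · rintro ⟨c, hc⟩
      refine ⟨Function.update c j (c j - ∑ i, c i * a i), ?_⟩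
      rw [hc, ← Finset.add_sum_erase _ _ (Finset.mem_univ j),
        ← Finset.add_sum_erase (s := Finset.univ) (f := fun i =>
          ((Function.update c j (c j - ∑ i, c i * a i) i : Q) : K) * x i)
          (h := Finset.mem_univ j), Function.update_self, ha]
      have h1 : ∑ i ∈ Finset.univ.erase j,
          ((Function.update c j (c j - ∑ i, c i * a i) i : Q) : K) * x i =
          ∑ i ∈ Finset.univ.erase j, (c i : K) * x i := by
        refine Finset.sum_congr rfl fun i hi => ?_
        rw [Function.update_of_ne (Finset.ne_of_mem_erase hi)]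
      have h2 : ((∑ i, c i * a i : Q) : K) = ∑ i ∈ Finset.univ.erase j, (c i : K) * a i := by
        rw [← Finset.add_sum_erase _ _ (Finset.mem_univ j), ha, mul_zero, zero_add]
        push_cast
        rfl
      have h3 : ∑ i ∈ Finset.univ.erase j, (c i : K) * (x i - a i * x j) =
          ∑ i ∈ Finset.univ.erase j, (c i : K) * x i -
            (∑ i ∈ Finset.univ.erase j, (c i : K) * a i) * x j := by
        rw [Finset.sum_mul, ← Finset.sum_sub_distrib]
        refine Finset.sum_congr rfl fun i hi => ?_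
        ring
      rw [h1, h3]
      push_cast at h2 ⊢
      rw [h2]
      ring
  · intro m E hE h0
    have h1 : (fun i => x i - (a i : K) * x j) = fun i => ev Q x (Ls j (-a) i) := by
      funext i
      simp [Ls]
      ring
    rw [h1, ← ev_bind] at h0
    have h2 := h.qr m _ (hE.bind (Ls_low j (-a))) h0
    rw [map_bind, map_Ls] at h2
    have h3 : (fun i => ρ ((-a) i)) = -(fun i => ρ (a i)) := by
      funext i
      simp
    rw [h3] at h2
    have h4 := h2.bind (Ls_low j fun i => ρ (a i))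
    rwa [Ls_bind' (by rw [ha, map_zero])] at h4

end gen

end Pool.Agent.Q40.RP
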