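import Pool.Agent.H59.L.T97aac3.Q40.RP.Val

/-!
# Log uniformization of the valuation ring of a good branch
-/

set_option autoImplicit false
set_option linter.unusedVariables false
set_option linter.unusedSectionVars false

universe u v

namespace Pool.Agent.Q40.RP

open MvPolynomial IsLocalRing Pool.Agent.W418.LU2 Pool.Agent.TH188.QS

section gp

variable {K : Type u} [Field K] {k : Type v} [Field k] {n : ℕ}
  {O : Subring K} {ρ0 : O →+* k} {S : Finset O} {piv : (Fin n → O) → Fin n}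
  {ω : ℕ → Fin n → O} (hd : Dat O ρ0 S piv) (hω : ∀ l, IsLt S (ω l)) {s0 : Sta K n}
  (h0 : Gd O ρ0 s0) {V : ValuationSubring K}
  (hV : ∀ z, z ∈ V ↔ ∃ l, z ∈ (sq piv s0 ω l).1)

include hd hω h0 hV

lemma sq_le (l : ℕ) : (sq piv s0 ω l).1 ≤ V.toSubring := fun z hz => (hV z).2 ⟨l, hz⟩

lemma sq_inv (l : ℕ) : ∀ y ∈ (sq piv s0 ω l).1, y ≠ 0 → y⁻¹ ∈ V → y⁻¹ ∈ (sq piv s0 ω l).1 := by
  intro y hy hy0 hi
  obtain ⟨l', hl'⟩ := (hV _).1 hi
  have h1 := sq_mono (piv := piv) (s0 := s0) (ω := ω) (le_max_right l l') hl'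
  exact sq_ic hd hω h0 (le_max_left l l') hy hy0 h1

lemma sq_nu (l : ℕ) (i : Fin n) : ((sq piv s0 ω l).2 i)⁻¹ ∉ V := by
  intro hi
  obtain ⟨h1, h2, h3⟩ := (sq_gd hd hω h0 l).nu i
  exact h3 (sq_inv hd hω h0 hV l _ h1 h2 hi)

/-- The local ring as a localization of an algebra. -/
lemma nr_eq (l : ℕ) {T : Set K} (h1 : ∀ t ∈ T, t ∈ (sq piv s0 ω (l + 1)).1)
    (h2 : ∀ i, i ≠ piv (ω l) → (sq piv s0 ω (l + 1)).2 i ∈
      Subring.closure (((sq piv s0 ω l).1 : Set K) ∪ T)) :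
    lo V.toSubring (Subring.closure (((sq piv s0 ω l).1 : Set K) ∪ T)) =
      (sq piv s0 ω (l + 1)).1 := by
  have hle : Subring.closure (((sq piv s0 ω l).1 : Set K) ∪ T) ≤ (sq piv s0 ω (l + 1)).1 := by
    rw [Subring.closure_le]
    rintro t (ht | ht)
    · exact sq_mono (piv := piv) (s0 := s0) (ω := ω) (Nat.le_succ l) ht
    · exact h1 t ht
  apply le_antisymm
  · rintro z ⟨a, ha, b, hb, hb0, hbV, rfl⟩
    exact mul_mem (hle ha) (sq_inv hd hω h0 hV _ b (hle hb) hb0 hbV)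
  · rintro z ⟨E, D, hD, hz⟩
    obtain ⟨hO, ρ, hf, hρ⟩ := sq_gd hd hω h0 l
    obtain ⟨a, ha, ha', hac, hb⟩ := hd.step (hω l) hO hf hρ
    have hg : ∀ i, (sq piv s0 ω (l + 1)).2 i ∈
        Subring.closure (((sq piv s0 ω l).1 : Set K) ∪ T) := by
      intro i
      by_cases hi : i = piv (ω l)
      · refine Subring.subset_closure (Or.inl ?_)
        have h3 : (sq piv s0 ω (l + 1)).2 i = (sq piv s0 ω l).2 (piv (ω l)) := by
          change stp (piv (ω l)) (fun i => (ω l i : K)) (sq piv s0 ω l).2 i = _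
          unfold stp
          rw [if_pos hi]
        rw [h3]
        exact hf.mem _
      · exact h2 i hi
    have hev : ∀ E : MvPolynomial (Fin n) (sq piv s0 ω l).1,
        ev (sq piv s0 ω l).1 (sq piv s0 ω (l + 1)).2 E ∈
          Subring.closure (((sq piv s0 ω l).1 : Set K) ∪ T) := by
      intro E
      rw [ev_sum]
      refine Subring.sum_mem _ fun γ _ => Subring.mul_mem _
        (Subring.subset_closure (Or.inl (coeff γ E).2))
        (Subring.prod_mem _ fun i _ => Subring.pow_mem _ (hg i) _)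
    have hD0 : ev (sq piv s0 ω l).1 (sq piv s0 ω (l + 1)).2 D ≠ 0 := (hf.lin ha).ev_ne hb hD
    refine ⟨_, hev E, _, hev D, hD0, ?_, ?_⟩
    · refine (hV _).2 ⟨l + 1, 1, D, hD, ?_⟩
      rw [map_one, one_div]
      rfl
    · rw [← div_eq_mul_inv]
      exact hz

/-- Regularity of the parameters. -/
theorem sq_reg (hr : RegP V.toSubring s0.1 s0.2) (l : ℕ) :
    RegP V.toSubring (sq piv s0 ω l).1 (sq piv s0 ω l).2 := by
  classical
  induction l with
  | zero => exact hr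
  | succ l ih =>
    obtain ⟨hO, ρ, hf, hρ⟩ := sq_gd hd hω h0 l
    obtain ⟨a, ha, ha', hac, hb⟩ := hd.step (hω l) hO hf hρ
    set j := piv (ω l) with hj
    have ht := hf.lin ha
    have hnu := fun i => sq_nu hd hω h0 hV l i
    have h1 := regP_lin ih hnu ha (fun i => ht.ne i)
    have hxj : (sq piv s0 ω l).2 j - a j * (sq piv s0 ω l).2 j = (sq piv s0 ω l).2 j := by
      rw [ha]; simp
    have hx' : ∀ i, i ≠ j → (sq piv s0 ω (l + 1)).2 i =
        ((sq piv s0 ω l).2 i - a i * (sq piv s0 ω l).2 j) *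
          ((sq piv s0 ω l).2 j - a j * (sq piv s0 ω l).2 j)⁻¹ := by
      intro i hi
      have h2 := hb.mul i hi
      have h3 := ht.ne j
      rw [h2, mul_comm _ (stp j (fun i => (ω l i : K)) (sq piv s0 ω l).2 i), mul_assoc,
        mul_inv_cancel₀ h3, mul_one]
      rfl
    have hx'j : (sq piv s0 ω (l + 1)).2 j = (sq piv s0 ω l).2 j := by
      change stp j (fun i => (ω l i : K)) (sq piv s0 ω l).2 j = _
      unfold stp
      rw [if_pos rfl]
    have hmax : ∀ i, ((sq piv s0 ω l).2 i - a i * (sq piv s0 ω l).2 j)⁻¹ ∉ V.toSubring := by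
      intro i hi
      have h2 := sq_inv hd hω h0 hV l _ (ht.mem i) (ht.ne i) hi
      have h3 : (⟨_, ht.mem i⟩ : (sq piv s0 ω l).1) * ⟨_, h2⟩ = 1 :=
        Subtype.ext (mul_inv_cancel₀ (ht.ne i))
      have h4 := congrArg ρ h3
      rw [map_mul, ht.rho_x i, zero_mul, map_one] at h4
      exact zero_ne_one h4
    have h2 := regP_qt (loc_V V) h1 j (hmax j) (Finset.univ.erase j) (fun i hi => by
      have hij := Finset.ne_of_mem_erase hi
      refine ⟨hij, hmax i, ?_⟩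
      rw [← hx' i hij]
      exact sq_le hd hω h0 hV (l + 1) ((sq_gd hd hω h0 (l + 1)).nu i).1)
    have h3 : lo V.toSubring (Subring.closure (((sq piv s0 ω l).1 : Set K) ∪
        {t | ∃ i ∈ Finset.univ.erase j, t =
          ((sq piv s0 ω l).2 i - a i * (sq piv s0 ω l).2 j) *
          ((sq piv s0 ω l).2 j - a j * (sq piv s0 ω l).2 j)⁻¹})) = (sq piv s0 ω (l + 1)).1 := by
      refine nr_eq hd hω h0 hV l ?_ fun i hi => ?_
      · rintro t ⟨i, hi, rfl⟩
        rw [← hx' i (Finset.ne_of_mem_erase hi)]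
        exact ((sq_gd hd hω h0 (l + 1)).nu i).1
      · rw [hx' i hi]
        exact Subring.subset_closure (Or.inr ⟨i, Finset.mem_erase.2 ⟨hi, Finset.mem_univ _⟩, rfl⟩)
    rw [h3] at h2
    convert h2 using 1
    funext i
    by_cases hi : i = j
    · rw [hi, hx'j, if_neg (by simp), hxj]
    · rw [if_pos (Finset.mem_erase.2 ⟨hi, Finset.mem_univ _⟩), hx' i hi]

/-- The pivot has the minimal value. -/
theorem sq_mi (l : ℕ) : Mi V.toSubring (sq piv s0 ω l).1 ((sq piv s0 ω l).2 (piv (ω l))) := by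
  classical
  obtain ⟨hO, ρ, hf, hρ⟩ := sq_gd hd hω h0 l
  obtain ⟨a, ha, ha', hac, hb⟩ := hd.step (hω l) hO hf hρ
  set j := piv (ω l) with hj
  refine ⟨hf.mem j, hf.ne j, sq_nu hd hω h0 hV l j, fun y hy hn => ?_⟩
  have hn' : y = 0 ∨ y⁻¹ ∉ (sq piv s0 ω l).1 := by
    by_contra hcon
    push Not at hcon
    exact hn ⟨hcon.1, sq_le hd hω h0 hV l hcon.2⟩
  have h1 : ρ ⟨y, hy⟩ = 0 := by
    by_contra h1
    rcases hn' with h2 | h2
    · subst h2
      apply h1
      have : (⟨0, hy⟩ : (sq piv s0 ω l).1) = 0 := rfl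
      rw [this, map_zero]
    · exact h2 (hf.inv _ h1)
  obtain ⟨D, hD⟩ := (hf.lin ha).dvd hb h1
  change y = _ at hD
  have hxj : (sq piv s0 ω l).2 j - a j * (sq piv s0 ω l).2 j = (sq piv s0 ω l).2 j := by
    rw [ha]; simp
  rw [hxj] at hD
  rw [hD, mul_comm, inv_mul_cancel_left₀ (hf.ne j)]
  exact sq_le hd hω h0 hV (l + 1) (ev_mem_nr _ _ _)

theorem sq_qt (l : ℕ) : (sq piv s0 ω (l + 1)).1 = qt V.toSubring (sq piv s0 ω l).1 := by
  classical
  have hmi := sq_mi hd hω h0 hV l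
  obtain ⟨hO, ρ, hf, hρ⟩ := sq_gd hd hω h0 l
  obtain ⟨a, ha, ha', hac, hb⟩ := hd.step (hω l) hO hf hρ
  set j := piv (ω l) with hj
  have ht := hf.lin ha
  have hxj : (sq piv s0 ω l).2 j - a j * (sq piv s0 ω l).2 j = (sq piv s0 ω l).2 j := by
    rw [ha]; simp
  rw [qt_eq (sq_le hd hω h0 hV l) hmi]
  symm
  refine nr_eq hd hω h0 hV l ?_ fun i hi => ?_
  · rintro t ⟨y, hy, hn, rfl⟩
    have hn' : y = 0 ∨ y⁻¹ ∉ (sq piv s0 ω l).1 := by
      by_contra hcon
      push Not at hcon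
      exact hn ⟨hcon.1, sq_le hd hω h0 hV l hcon.2⟩
    have h1 : ρ ⟨y, hy⟩ = 0 := by
      by_contra h1
      rcases hn' with h2 | h2
      · subst h2
        apply h1
        have : (⟨0, hy⟩ : (sq piv s0 ω l).1) = 0 := rfl
        rw [this, map_zero]
      · exact h2 (hf.inv _ h1)
    obtain ⟨D, hD⟩ := ht.dvd hb h1
    change y = _ at hD
    rw [hxj] at hD
    rw [hD, mul_comm, inv_mul_cancel_left₀ (hf.ne j)]
    exact ev_mem_nr _ _ _
  · refine Subring.subset_closure (Or.inr ⟨_, ht.mem i, ?_, ?_⟩)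
    · rintro ⟨h1, h2⟩
      have h2 := sq_inv hd hω h0 hV l _ (ht.mem i) (ht.ne i) h2
      have h3 : (⟨_, ht.mem i⟩ : (sq piv s0 ω l).1) * ⟨_, h2⟩ = 1 :=
        Subtype.ext (mul_inv_cancel₀ (ht.ne i))
      have h4 := congrArg ρ h3
      rw [map_mul, ht.rho_x i, zero_mul, map_one] at h4
      exact zero_ne_one h4
    · have h2 := hb.mul i hi
      rw [h2, hxj, mul_comm, inv_mul_cancel_left₀ (hf.ne j)]
      rfl

omit hd hω h0 hV in
lemma Mo.pmon {Q : Subring K} {x : Fin n → K} {f : K} (h : Mo Q x f) : PMon Q x f := by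
  obtain ⟨u, u0, u1, u2, γ, rfl⟩ := h
  refine ⟨u, u0, u1, u2, fun i => (γ i : ℤ), ?_⟩
  unfold mo
  simp only [zpow_natCast]

/-- The general form of log uniformization. -/
theorem sq_gp (hr : RegP V.toSubring s0.1 s0.2)
    (hmo : ∀ z : K, z ≠ 0 → ∃ l, PMon (sq piv s0 ω l).1 (sq piv s0 ω l).2 z)
    {A : Subring K} (hA : A ≤ V.toSubring) {l0 : ℕ} {g0 : K}
    (hFg : Fg V A (sq piv s0 ω l0).1 g0) : GP V A := by
  classical
  have hmono := sq_mono (piv := piv) (s0 := s0) (ω := ω)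
  have hpm : ∀ {l l' : ℕ}, l ≤ l' → ∀ z, PMon (sq piv s0 ω l).1 (sq piv s0 ω l).2 z →
      PMon (sq piv s0 ω l').1 (sq piv s0 ω l').2 z := by
    intro l l' hl z hz
    refine PMon.of_gen (fun i => (sq_gd hd hω h0 l').nu i |>.2.1) (hmono hl) (fun i => ?_) hz
    exact (sq_mo hd hω h0 hl (Mo.self _ _ i)).pmon
  -- the denominators
  have hden : ∀ l, ∃ g h : K, ∃ m : ℕ, Fg V A (sq piv s0 ω (l0 + l)).1 g ∧ g = g0 ^ m * h ∧
      Mo (sq piv s0 ω (l0 + l)).1 (sq piv s0 ω (l0 + l)).2 h := by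
    intro l
    induction l with
    | zero => exact ⟨g0, 1, 1, hFg, by rw [pow_one, mul_one], Mo.one⟩
    | succ l ih =>
      obtain ⟨g, h, m, hg, hgh, hm⟩ := ih
      have hreg := (sq_reg hd hω h0 hV hr (l0 + l)).reg
      have hnoe : IsNoetherianRing (sq piv s0 ω (l0 + l)).1 := inferInstance
      obtain ⟨g', u, m', u0, u1, u2, hg', hFg'⟩ := hg.step hA (sq_mi hd hω h0 hV (l0 + l))
      rw [← sq_qt hd hω h0 hV (l0 + l)] at hFg'
      refine ⟨g', h ^ m' * (u * (sq piv s0 ω (l0 + l)).2 (piv (ω (l0 + l)))), m * m', hFg', ?_, ?_⟩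
      · rw [hg', hgh, mul_pow, ← pow_mul]
        ring
      · have h1 := (hm.pow m').mul ((Mo.unit u0 u1 u2).mul
          (Mo.self _ _ (piv (ω (l0 + l)))))
        exact (sq_gd hd hω h0 (l0 + l)).mo hd (hω (l0 + l)) h1
  intro G H hGf hHf hG hH
  -- large stages
  have hG' : ∃ N, ∀ z ∈ insert g0 G, ∀ l, N ≤ l → PMon (sq piv s0 ω l).1 (sq piv s0 ω l).2 z := by
    have hch : ∀ z : K, ∃ l, z ∈ insert g0 G → PMon (sq piv s0 ω l).1 (sq piv s0 ω l).2 z := by
      intro z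
      by_cases hz : z ∈ insert g0 G
      · have hz0 : z ≠ 0 := by
          rcases hz with rfl | hz
          · exact hFg.2.1
          · exact (hG z hz).1
        obtain ⟨l, hl⟩ := hmo z hz0
        exact ⟨l, fun _ => hl⟩
      · exact ⟨0, fun h => absurd h hz⟩
    choose nn hnn using hch
    refine ⟨(hGf.insert g0).toFinset.sup nn, fun z hz l hl => hpm ?_ z (hnn z hz)⟩
    exact le_trans (Finset.le_sup ((hGf.insert g0).mem_toFinset.2 hz)) hl
  have hH' : ∃ N, ∀ z ∈ H, ∀ l, N ≤ l → z ∈ (sq piv s0 ω l).1 := by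
    have hch : ∀ z : K, ∃ l, z ∈ H → z ∈ (sq piv s0 ω l).1 := by
      intro z
      by_cases hz : z ∈ H
      · obtain ⟨l, hl⟩ := (hV z).1 (hH z hz).1
        exact ⟨l, fun _ => hl⟩
      · exact ⟨0, fun h => absurd h hz⟩
    choose nn hnn using hch
    refine ⟨hHf.toFinset.sup nn, fun z hz l hl => hmono ?_ (hnn z hz)⟩
    exact le_trans (Finset.le_sup (hHf.mem_toFinset.2 hz)) hl
  obtain ⟨N, hN⟩ := hG'
  obtain ⟨N', hN'⟩ := hH'
  obtain ⟨g, h, m, hg, hgh, hm⟩ := hden (N + N')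
  have hne : ∀ i, (sq piv s0 ω (l0 + (N + N'))).2 i ≠ 0 := fun i =>
    ((sq_gd hd hω h0 _).nu i).2.1
  refine ⟨Fin n, inferInstance, (sq piv s0 ω (l0 + (N + N'))).2, (sq piv s0 ω (l0 + (N + N'))).1, g,
    sq_reg hd hω h0 hV hr _, hg, ?_, fun z hz => hN z (Or.inr hz) _ (by omega),
    fun z hz => hN' z hz _ (by omega)⟩
  rw [hgh]
  exact (Pool.Agent.TH188.QS.PMon.pow hne (hN g0 (Or.inl rfl) _ (by omega)) m).mul hne hm.pmon

end gp

end Pool.Agent.Q40.RP
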