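import Mathlib

/-!
# Polynomials without terms of small degree
-/

set_option autoImplicit false
set_option linter.unusedVariables false
set_option linter.unusedSectionVars false

universe u v

namespace Pool.Agent.Q40.RP

open MvPolynomial

section low

variable {R : Type u} [CommRing R] {n : ℕ}

/-- All terms have degree at least `k`. -/
def Low (k : ℕ) (E : MvPolynomial (Fin n) R) : Prop :=
  ∀ γ : Fin n →₀ ℕ, coeff γ E ≠ 0 → k ≤ Finsupp.degree γ

lemma low_zero (E : MvPolynomial (Fin n) R) : Low 0 E := fun _ _ => Nat.zero_le _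

lemma Low.mono {k l : ℕ} {E : MvPolynomial (Fin n) R} (h : Low k E) (hl : l ≤ k) : Low l E :=
  fun γ hγ => hl.trans (h γ hγ)

lemma Low.coeff_eq_zero {k : ℕ} {E : MvPolynomial (Fin n) R} (h : Low k E) {γ : Fin n →₀ ℕ}
    (hγ : Finsupp.degree γ < k) : coeff γ E = 0 := by
  by_contra h0
  exact absurd (h γ h0) (not_le.2 hγ)

lemma Low.zero (k : ℕ) : Low k (0 : MvPolynomial (Fin n) R) := fun γ hγ =>
  absurd (coeff_zero γ) hγ

lemma Low.add {k : ℕ} {E F : MvPolynomial (Fin n) R} (hE : Low k E) (hF : Low k F) :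
    Low k (E + F) := by
  intro γ hγ
  by_contra hk
  rw [not_le] at hk
  rw [coeff_add, hE.coeff_eq_zero hk, hF.coeff_eq_zero hk, add_zero] at hγ
  exact hγ rfl

lemma Low.neg {k : ℕ} {E : MvPolynomial (Fin n) R} (hE : Low k E) : Low k (-E) := by
  intro γ hγ
  rw [coeff_neg, neg_ne_zero] at hγ
  exact hE γ hγ

lemma Low.sub {k : ℕ} {E F : MvPolynomial (Fin n) R} (hE : Low k E) (hF : Low k F) :
    Low k (E - F) := by
  rw [sub_eq_add_neg]
  exact hE.add hF.neg

lemma Low.mul {k l : ℕ} {E F : MvPolynomial (Fin n) R} (hE : Low k E) (hF : Low l F) :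
    Low (k + l) (E * F) := by
  intro γ hγ
  rw [coeff_mul] at hγ
  obtain ⟨⟨a, b⟩, hab, h⟩ := Finset.exists_ne_zero_of_sum_ne_zero hγ
  rw [Finset.HasAntidiagonal.mem_antidiagonal] at hab
  simp only at hab h
  have h1 := hE a (left_ne_zero_of_mul h)
  have h2 := hF b (right_ne_zero_of_mul h)
  rw [← hab, map_add]
  exact add_le_add h1 h2

lemma Low.mul_left {k : ℕ} {E : MvPolynomial (Fin n) R} (hE : Low k E)
    (F : MvPolynomial (Fin n) R) : Low k (F * E) := by
  have := (low_zero F).mul hE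
  rwa [zero_add] at this

lemma Low.sum {k : ℕ} {μ : Type v} (s : Finset μ) {f : μ → MvPolynomial (Fin n) R}
    (h : ∀ i ∈ s, Low k (f i)) : Low k (∑ i ∈ s, f i) := by
  classical
  induction s using Finset.induction_on with
  | empty => rw [Finset.sum_empty]; exact Low.zero k
  | insert a s ha ih =>
    rw [Finset.sum_insert ha]
    exact (h a (Finset.mem_insert_self _ _)).add (ih fun i hi => h i (Finset.mem_insert_of_mem hi))

lemma Low.monomial {k : ℕ} {γ : Fin n →₀ ℕ} (h : k ≤ Finsupp.degree γ) (c : R) :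
    Low k (MvPolynomial.monomial γ c) := by
  intro δ hδ
  rw [coeff_monomial] at hδ
  split_ifs at hδ with h1
  · rwa [← h1]
  · exact absurd rfl hδ

lemma Low.X (i : Fin n) : Low 1 (X i : MvPolynomial (Fin n) R) := by
  refine Low.monomial ?_ 1
  rw [Finsupp.degree_single]

lemma Low.pow {k : ℕ} {E : MvPolynomial (Fin n) R} (hE : Low k E) (m : ℕ) :
    Low (m * k) (E ^ m) := by
  induction m with
  | zero => rw [Nat.zero_mul]; exact low_zero _
  | succ m ih =>
    rw [pow_succ, Nat.succ_mul]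
    exact ih.mul hE

lemma Low.prod {μ : Type v} (s : Finset μ) {f : μ → MvPolynomial (Fin n) R} {k : μ → ℕ}
    (h : ∀ i ∈ s, Low (k i) (f i)) : Low (∑ i ∈ s, k i) (∏ i ∈ s, f i) := by
  classical
  induction s using Finset.induction_on with
  | empty => rw [Finset.sum_empty]; exact low_zero _
  | insert a s ha ih =>
    rw [Finset.prod_insert ha, Finset.sum_insert ha]
    exact (h a (Finset.mem_insert_self _ _)).mul (ih fun i hi => h i (Finset.mem_insert_of_mem hi))

lemma Low.map {S : Type v} [CommRing S] (f : R →+* S) {k : ℕ} {E : MvPolynomial (Fin n) R}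
    (hE : Low k E) : Low k (MvPolynomial.map f E) := by
  intro γ hγ
  rw [coeff_map] at hγ
  exact hE γ fun h => hγ (by rw [h, map_zero])

/-- Substitution of polynomials without constant term. -/
lemma Low.bind {k : ℕ} {E : MvPolynomial (Fin n) R} (hE : Low k E)
    {L : Fin n → MvPolynomial (Fin n) R} (hL : ∀ i, Low 1 (L i)) : Low k (bind₁ L E) := by
  rw [← E.support_sum_monomial_coeff, map_sum]
  refine Low.sum _ fun γ hγ => ?_
  rw [bind₁_monomial]
  refine Low.mul_left ?_ _
  have h1 := hE γ (mem_support_iff.1 hγ)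
  have h2 : Low (∑ i ∈ γ.support, γ i * 1) (∏ i ∈ γ.support, L i ^ γ i) :=
    Low.prod _ fun i _ => (hL i).pow (γ i)
  refine h2.mono (h1.trans (le_of_eq ?_))
  rw [Finsupp.degree_apply]
  exact Finset.sum_congr rfl fun i _ => (mul_one _).symm

/-- Division by a factor with nonzero constant term. -/
lemma Low.of_mul [IsDomain R] {k : ℕ} {D E : MvPolynomial (Fin n) R} (hD : coeff 0 D ≠ 0)
    (h : Low k (D * E)) : Low k E := by
  by_contra hcon
  unfold Low at hcon
  push Not at hcon
  -- an exponent of minimal degree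
  let P : ℕ → Prop := fun d => ∃ γ : Fin n →₀ ℕ, coeff γ E ≠ 0 ∧ Finsupp.degree γ = d
  obtain ⟨γ₀, h1, h2⟩ := hcon
  have hex : ∃ d, P d := ⟨_, γ₀, h1, rfl⟩
  classical
  obtain ⟨γ, hγ, hd⟩ := Nat.find_spec hex
  have hmin : ∀ δ : Fin n →₀ ℕ, Finsupp.degree δ < Finsupp.degree γ → coeff δ E = 0 := by
    intro δ hδ
    by_contra h0
    rw [hd] at hδ
    exact Nat.find_min hex hδ ⟨δ, h0, rfl⟩
  have hlt : Finsupp.degree γ < k := by
    rw [hd]
    exact lt_of_le_of_lt (Nat.find_min' hex ⟨γ₀, h1, rfl⟩) h2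
  have h3 := h.coeff_eq_zero hlt
  rw [coeff_mul, Finset.sum_eq_single (0, γ)] at h3
  · exact (mul_ne_zero hD hγ) h3
  · rintro ⟨a, b⟩ hab hne
    rw [Finset.HasAntidiagonal.mem_antidiagonal] at hab
    simp only at hab ⊢
    have h4 : a ≠ 0 := by
      rintro rfl
      rw [zero_add] at hab
      exact hne (by rw [hab])
    have h5 : Finsupp.degree b < Finsupp.degree γ := by
      rw [← hab, map_add]
      have h6 : 0 < Finsupp.degree a := by
        rw [Nat.pos_iff_ne_zero]
        intro h7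
        exact h4 ((Finsupp.degree_eq_zero_iff a).1 h7)
      omega
    rw [hmin b h5, mul_zero]
  · intro h4
    exact absurd (Finset.HasAntidiagonal.mem_antidiagonal.2 (zero_add γ)) h4

end low

end Pool.Agent.Q40.RP
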