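import Pool.Agent.H59.L.T97aac3.Q40.RP.Nr

/-!
# Orders of weak transforms and multiplicities of initial forms
-/

set_option autoImplicit false
set_option linter.unusedVariables false
set_option linter.unusedSectionVars false

universe u v

namespace Pool.Agent.Q40.RP

open MvPolynomial

section od

variable {K : Type u} [Field K] {k : Type v} [Field k] {n : ℕ}
  {Q : Subring K} {ρ : Q →+* k} {x x' : Fin n → K} {j : Fin n}

/-- Reduction modulo the exceptional divisor. -/
noncomputable def th (ρ : Q →+* k) (j : Fin n) : MvPolynomial (Fin n) Q →+* MvPolynomial (Fin n) k :=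
  eval₂Hom ((C : k →+* MvPolynomial (Fin n) k).comp ρ) (fun i => if i = j then 0 else X i)

lemma th_monomial (ρ : Q →+* k) (j : Fin n) (δ : Fin n →₀ ℕ) (c : Q) :
    th ρ j (monomial δ c) = if δ j = 0 then monomial δ (ρ c) else 0 := by
  classical
  unfold th
  rw [coe_eval₂Hom, eval₂_monomial, Finsupp.prod_fintype _ _ fun i => pow_zero _]
  by_cases hδ : δ j = 0
  · rw [if_pos hδ, monomial_eq, Finsupp.prod_fintype _ _ fun i => pow_zero _]
    change C (ρ c) * _ = _
    congr 1
    refine Finset.prod_congr rfl fun i _ => ?_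
    by_cases hi : i = j
    · rw [hi, hδ, pow_zero, pow_zero]
    · rw [if_neg hi]
  · rw [if_neg hδ]
    have h1 : ∏ i, (if i = j then (0 : MvPolynomial (Fin n) k) else X i) ^ δ i = 0 := by
      refine Finset.prod_eq_zero (Finset.mem_univ j) ?_
      rw [if_pos rfl, zero_pow hδ]
    rw [h1, mul_zero]

lemma coeff_th (ρ : Q →+* k) (j : Fin n) (P : MvPolynomial (Fin n) Q) (γ : Fin n →₀ ℕ) :
    coeff γ (th ρ j P) = if γ j = 0 then ρ (coeff γ P) else 0 := by
  classical
  have h1 : th ρ j P = ∑ δ ∈ P.support, th ρ j (monomial δ (coeff δ P)) := by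
    conv_lhs => rw [← P.support_sum_monomial_coeff, map_sum]
  rw [h1, coeff_sum]
  have h2 : ∀ δ ∈ P.support, coeff γ (th ρ j (monomial δ (coeff δ P))) =
      if δ = γ then (if γ j = 0 then ρ (coeff γ P) else 0) else 0 := by
    intro δ _
    rw [th_monomial]
    by_cases hδγ : δ = γ
    · subst hδγ
      rw [if_pos rfl]
      split_ifs
      · rw [coeff_monomial, if_pos rfl]
      · rfl
    · rw [if_neg hδγ]
      split_ifs
      · rw [coeff_monomial, if_neg hδγ]
      · rfl
  rw [Finset.sum_congr rfl h2, Finset.sum_ite_eq']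
  split_ifs with h3 h4
  · rfl
  · rfl
  · rw [mem_support_iff, not_not] at h3
    rw [h3, map_zero]
  · rfl

/-- Homogeneous components and linear substitutions. -/
lemma hc_Ls {j : Fin n} (a : Fin n → k) {m : ℕ} {F : MvPolynomial (Fin n) k} (hF : Low m F)
    (δ : Fin n →₀ ℕ) : coeff δ (bind₁ (Ls j a) (homogeneousComponent m F)) =
      if Finsupp.degree δ = m then coeff δ (bind₁ (Ls j a) F) else 0 := by
  classical
  have h1 : (bind₁ (Ls j a) (homogeneousComponent m F)).IsHomogeneous m := by
    have h2 := (homogeneousComponent_isHomogeneous m F).aeval (Ls j a) (n := 1) (by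
      intro i
      refine (isHomogeneous_X k i).add ?_
      exact isHomogeneous_C_mul_X (a i) j)
    rw [one_mul] at h2
    exact h2
  split_ifs with hδ
  · have h2 : Low (m + 1) (F - homogeneousComponent m F) := by
      intro γ hγ
      rw [coeff_sub, coeff_homogeneousComponent] at hγ
      have h3 : coeff γ F ≠ 0 := by
        intro h0
        apply hγ
        rw [h0]
        split_ifs <;> simp
      have h4 := hF γ h3
      by_contra hlt
      rw [if_pos (by omega), sub_self] at hγ
      exact hγ rfl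
    have h3 := (h2.bind (Ls_low j a)).coeff_eq_zero (γ := δ) (by omega)
    rw [map_sub, coeff_sub, sub_eq_zero] at h3
    exact h3.symm
  · exact h1.coeff_eq_zero hδ

/-- The order of the weak transform is bounded by the multiplicity of the initial form. -/
theorem Fra.od (h : Fra Q ρ x) {a : Fin n → Q} (ha : a j = 0) {c : Fin n → k}
    (hac : ∀ i, i ≠ j → ρ (a i) * c j = c i)
    (hb : Blw (fun i => x i - a i * x j) x' j) {m : ℕ} {F : MvPolynomial (Fin n) Q}
    (hF : Low m F) {l : ℕ} (hl : Inp (nr Q x') x' l (ev Q x F / x j ^ m)) :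
    Low l (sh c (homogeneousComponent m (map ρ F))) := by
  classical
  have ht := h.lin ha
  have hxj : x j - a j * x j = x j := by rw [ha]; simp
  set xt : Fin n → K := fun i => x i - a i * x j with hxt
  have hxtj : xt j = x j := hxj
  -- the polynomial in the new parameters
  set F1 := bind₁ (Ls j a) F with hF1
  have hF1low : Low m F1 := hF.bind (Ls_low j a)
  have hF1ev : ev Q xt F1 = ev Q x F := by
    rw [hF1, ev_bind]
    congr 2
    funext i
    unfold Ls
    rw [map_add, map_mul, ev_X, ev_C, ev_X, hxtj]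
    simp only [hxt]
    ring
  let ψ : (Fin n →₀ ℕ) → (Fin n →₀ ℕ) := fun δ => δ.update j (Finsupp.degree δ - m)
  let D0 : Set (Fin n →₀ ℕ) := {δ | m ≤ Finsupp.degree δ}
  have hψ : ∀ δ ∈ D0, Rel j m δ (ψ δ) := fun δ hδ => rel_down hδ
  have hinj : Set.InjOn ψ D0 := by
    intro δ hδ δ' hδ' he
    have h1 := hψ δ hδ
    rw [he] at h1
    exact h1.unique_left (hψ δ' hδ')
  have hsup : ∀ δ, coeff δ F1 ≠ 0 → δ ∈ D0 := fun δ hδ => hF1low δ hδ
  have hxj0 : xt j ≠ 0 := ht.ne j
  have hF2 : ev Q x' (tr ψ F1) * x j ^ m = ev Q x F := by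
    rw [← hF1ev, ev_sum Q xt, ← hxtj]
    unfold tr
    rw [map_sum, Finset.sum_mul]
    refine Finset.sum_congr rfl fun δ hδ => ?_
    rw [ev_monomial, hb.prod (hψ δ (hsup δ (mem_support_iff.1 hδ)))]
    ring
  have hF3 : ev Q x F / x j ^ m = ev Q x' (tr ψ F1) := by
    rw [← hF2, mul_div_assoc, div_self (pow_ne_zero _ (by rw [← hxtj]; exact hxj0)), mul_one]
  rw [hF3] at hl
  obtain ⟨E, hE, hev⟩ := hl
  obtain ⟨D, H, hD, hH, hevH, -⟩ := ht.clear hb hE
  rw [hev, ← map_mul] at hevH
  have hth : th ρ j D * th ρ j (tr ψ F1) = th ρ j H := by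
    rw [← map_mul, ← sub_eq_zero, ← map_sub]
    ext γ
    rw [coeff_th, coeff_zero]
    split_ifs with hγ
    · refine ht.zero hb ?_ hγ
      rw [map_sub, hevH, sub_self]
    · rfl
  have hlow : Low l (th ρ j (tr ψ F1)) := by
    refine Low.of_mul (D := th ρ j D) ?_ ?_
    · rw [coeff_th, if_pos (by simp)]
      exact (h.isUnit _).1 hD
    · rw [hth]
      intro γ hγ
      rw [coeff_th] at hγ
      split_ifs at hγ with hγj
      · exact hH γ fun h0 => hγ (by rw [h0, map_zero])
      · exact absurd rfl hγ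
  have hkey : ∀ δ, Finsupp.degree δ = m → ρ (coeff δ F1) ≠ 0 → l + δ j ≤ m := by
    intro δ hδ hne
    have hδD : δ ∈ D0 := hδ.ge
    have hδj : (ψ δ) j = 0 := by
      simp only [ψ]
      rw [Finsupp.coe_update, Function.update_self, hδ, Nat.sub_self]
    have h1 := hlow (ψ δ) (by
      rw [coeff_th, if_pos hδj, coeff_tr hsup hinj hδD]
      exact hne)
    have h2 := degree_update δ j (Finsupp.degree δ - m)
    change Finsupp.degree (ψ δ) + δ j = _ at h2
    omega
  -- back to the initial form
  have hab : (fun i => ρ (a i)) j = 0 := by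
    change ρ (a j) = 0
    rw [ha, map_zero]
  have hG : ∀ δ, coeff δ (bind₁ (Ls j fun i => ρ (a i)) (homogeneousComponent m (map ρ F))) ≠ 0 →
      l + δ j ≤ Finsupp.degree δ := by
    intro δ hδ
    rw [hc_Ls _ (hF.map ρ)] at hδ
    split_ifs at hδ with hd
    · rw [hd]
      refine hkey δ hd ?_
      rw [← map_Ls, ← map_bind, coeff_map] at hδ
      exact hδ
    · exact absurd rfl hδ
  rw [← Ls_bind (a := fun i => ρ (a i)) (j := j) hab (homogeneousComponent m (map ρ F))]
  set G := bind₁ (Ls j fun i => ρ (a i)) (homogeneousComponent m (map ρ F)) with hGdef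
  unfold sh
  rw [bind₁_bind₁]
  have hM : ∀ i, i ≠ j → Low 1 (bind₁ (fun i => X i + C (c i)) (Ls j (-fun i => ρ (a i)) i)) := by
    intro i hi
    have h1 : bind₁ (fun i => X i + C (c i)) (Ls j (-fun i => ρ (a i)) i) =
        X i + C (-ρ (a i)) * X j := by
      unfold Ls
      rw [map_add, map_mul, bind₁_X_right, bind₁_C_right, bind₁_X_right, ← hac i hi]
      simp only [Pi.neg_apply, C_neg, C_mul]
      ring
    rw [h1]
    exact (Low.X i).add ((Low.X j).mul_left _)
  rw [← G.support_sum_monomial_coeff, map_sum]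
  refine Low.sum _ fun δ hδ => ?_
  rw [bind₁_monomial]
  refine Low.mul_left ?_ _
  have h1 := hG δ (mem_support_iff.1 hδ)
  have h2 : Low (∑ i ∈ δ.support, if i = j then 0 else δ i)
      (∏ i ∈ δ.support, (bind₁ (fun i => X i + C (c i)) (Ls j (-fun i => ρ (a i)) i)) ^ δ i) := by
    refine Low.prod _ fun i _ => ?_
    split_ifs with hi
    · exact low_zero _
    · have := (hM i hi).pow (δ i)
      rwa [mul_one] at this
  refine h2.mono ?_
  have h3 : ∑ i ∈ δ.support, (if i = j then 0 else δ i) + δ j = Finsupp.degree δ := by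
    have h4 : ∑ i ∈ δ.support, (if i = j then 0 else δ i) = ∑ i, if i = j then 0 else δ i := by
      refine Finset.sum_subset (Finset.subset_univ _) fun i _ hi => ?_
      rw [Finsupp.notMem_support_iff] at hi
      rw [hi, ite_self]
    rw [h4, Finsupp.degree_eq_sum, ← Finset.add_sum_erase _ _ (Finset.mem_univ j),
      ← Finset.add_sum_erase (s := Finset.univ) (f := fun i => δ i) (h := Finset.mem_univ j),
      if_pos rfl, zero_add, add_comm]
    congr 1
    exact Finset.sum_congr rfl fun i hi => if_neg (Finset.ne_of_mem_erase hi)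
  omega

end od

end Pool.Agent.Q40.RP
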