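import Pool.Agent.H59.L.T97aac3.Q40.RP.Count
import Pool.Agent.H59.L.S8.W418.LU2.Cut

/-!
# Regular systems of parameters are quasi-regular
-/

set_option autoImplicit false
set_option linter.unusedVariables false
set_option linter.unusedSectionVars false

universe u v

namespace Pool.Agent.Q40.RP

open MvPolynomial

section rees

variable {B : Type u} [CommRing B] {n : ℕ}

/-- The polynomial contains only variables in `s`. -/
def VI (s : Finset (Fin n)) (E : MvPolynomial (Fin n) B) : Prop :=
  ∀ γ, coeff γ E ≠ 0 → ∀ i, i ∉ s → γ i = 0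

/-- The powers of the ideal generated by the elements in `s`. -/
def In (x : Fin n → B) (s : Finset (Fin n)) (m : ℕ) (b : B) : Prop :=
  ∃ E : MvPolynomial (Fin n) B, VI s E ∧ Low m E ∧ eval x E = b

lemma VI.sub {s : Finset (Fin n)} {E F : MvPolynomial (Fin n) B} (hE : VI s E) (hF : VI s F) :
    VI s (E - F) := by
  intro γ hγ i hi
  by_contra h0
  rw [coeff_sub, show coeff γ E = 0 by by_contra h; exact h0 (hE γ h i hi),
    show coeff γ F = 0 by by_contra h; exact h0 (hF γ h i hi), sub_zero] at hγ
  exact hγ rfl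

lemma VI.neg {s : Finset (Fin n)} {E : MvPolynomial (Fin n) B} (hE : VI s E) : VI s (-E) := by
  intro γ hγ i hi
  rw [coeff_neg, neg_ne_zero] at hγ
  exact hE γ hγ i hi

lemma VI.add {s : Finset (Fin n)} {E F : MvPolynomial (Fin n) B} (hE : VI s E) (hF : VI s F) :
    VI s (E + F) := by
  have := hE.sub hF.neg
  rwa [sub_neg_eq_add] at this

lemma VI.C_mul {s : Finset (Fin n)} {E : MvPolynomial (Fin n) B} (hE : VI s E) (b : B) :
    VI s (C b * E) := by
  intro γ hγ i hi
  rw [coeff_C_mul] at hγ
  exact hE γ (right_ne_zero_of_mul hγ) i hi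

lemma VI.mono {s t : Finset (Fin n)} {E : MvPolynomial (Fin n) B} (hE : VI s E) (h : s ⊆ t) :
    VI t E := fun γ hγ i hi => hE γ hγ i fun h' => hi (h h')

lemma VI.C {s : Finset (Fin n)} (b : B) : VI s (MvPolynomial.C b : MvPolynomial (Fin n) B) := by
  classical
  intro γ hγ i hi
  rw [coeff_C] at hγ
  split_ifs at hγ with h
  · rw [← h]; rfl
  · exact absurd rfl hγ

lemma VI.mul {s : Finset (Fin n)} {E F : MvPolynomial (Fin n) B} (hE : VI s E) (hF : VI s F) :
    VI s (E * F) := by
  intro γ hγ i hi
  rw [coeff_mul] at hγ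
  obtain ⟨⟨a, b⟩, hab, h⟩ := Finset.exists_ne_zero_of_sum_ne_zero hγ
  rw [Finset.HasAntidiagonal.mem_antidiagonal] at hab
  simp only at hab h
  rw [← hab, Finsupp.add_apply, hE a (left_ne_zero_of_mul h) i hi,
    hF b (right_ne_zero_of_mul h) i hi]

lemma VI.sum {s : Finset (Fin n)} {μ : Type v} (t : Finset μ) {f : μ → MvPolynomial (Fin n) B}
    (h : ∀ i ∈ t, VI s (f i)) : VI s (∑ i ∈ t, f i) := by
  classical
  induction t using Finset.induction_on with
  | empty =>
    rw [Finset.sum_empty]
    intro γ hγ
    exact absurd (coeff_zero γ) hγ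
  | insert a t ha ih =>
    rw [Finset.sum_insert ha]
    exact (h a (Finset.mem_insert_self _ _)).add (ih fun i hi => h i (Finset.mem_insert_of_mem hi))

lemma VI.X {s : Finset (Fin n)} {i : Fin n} (hi : i ∈ s) :
    VI s (MvPolynomial.X i : MvPolynomial (Fin n) B) := by
  classical
  intro γ hγ l hl
  rw [coeff_X] at hγ
  split_ifs at hγ with h
  · rw [← h, Finsupp.single_apply, if_neg]
    rintro rfl
    exact hl hi
  · exact absurd rfl hγ

lemma VI.monomial {s : Finset (Fin n)} {γ : Fin n →₀ ℕ} (h : ∀ i, i ∉ s → γ i = 0) (b : B) :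
    VI s (MvPolynomial.monomial γ b) := by
  classical
  intro δ hδ i hi
  rw [coeff_monomial] at hδ
  split_ifs at hδ with h1
  · rw [← h1]; exact h i hi
  · exact absurd rfl hδ

lemma eval_eq_sum' (x : Fin n → B) (E : MvPolynomial (Fin n) B) :
    eval x E = ∑ γ ∈ E.support, coeff γ E * ∏ i, x i ^ γ i := by
  rw [eval_eq']

/-- Coefficients in the ideal. -/
lemma in_succ {x : Fin n → B} {s : Finset (Fin n)} {m : ℕ} {F : MvPolynomial (Fin n) B}
    (hV : VI s F) (hF : Low m F)
    (h0 : ∀ γ, Finsupp.degree γ = m → coeff γ F ∈ Ideal.span (x '' (s : Set (Fin n)))) :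
    In x s (m + 1) (eval x F) := by
  classical
  have hd : ∀ γ, ∃ c : s → B, Finsupp.degree γ = m →
      coeff γ F = ∑ i, c i * x i := by
    intro γ
    by_cases hγ : Finsupp.degree γ = m
    · have h1 := h0 γ hγ
      rw [Ideal.span, Fintype.mem_span_image_iff_exists_fun] at h1
      obtain ⟨c, hc⟩ := h1
      exact ⟨c, fun _ => hc.symm⟩
    · exact ⟨0, fun h => absurd h hγ⟩
  choose d hd using hd
  refine ⟨∑ γ ∈ F.support, (if Finsupp.degree γ = m then ∑ i, C (d γ i) * X (i : Fin n)
    else C (coeff γ F)) * monomial γ 1, ?_, ?_, ?_⟩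
  · refine VI.sum _ fun γ hγ => ?_
    refine VI.mul ?_ (VI.monomial (hV γ (mem_support_iff.1 hγ)) 1)
    split_ifs
    · exact VI.sum _ fun i _ => (VI.X i.2).C_mul _
    · exact VI.C _
  · refine Low.sum _ fun γ hγ => ?_
    have h1 := hF γ (mem_support_iff.1 hγ)
    split_ifs with h2
    · have h3 : Low 1 (∑ i, C (d γ i) * X (i : Fin n) : MvPolynomial (Fin n) B) :=
        Low.sum _ fun i _ => (Low.X _).mul_left _
      have h4 := h3.mul (Low.monomial (R := B) h1 1)
      rwa [add_comm] at h4
    · refine Low.mul_left ?_ _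
      exact Low.monomial (by omega) 1
  · rw [map_sum, eval_eq_sum']
    refine Finset.sum_congr rfl fun γ _ => ?_
    rw [map_mul, eval_monomial, one_mul, Finsupp.prod_fintype _ _ fun i => pow_zero _]
    congr 1
    split_ifs with h2
    · rw [hd γ h2, map_sum]
      exact Finset.sum_congr rfl fun i _ => by rw [map_mul, eval_C, eval_X]
    · rw [eval_C]

variable {x : Fin n → B} (hp : ∀ s : Set (Fin n), (Ideal.span (x '' s)).IsPrime)
  (hn : ∀ (s : Set (Fin n)) (a : Fin n), a ∉ s → x a ∉ Ideal.span (x '' s))

include hp hn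

/-- Rees's theorem. -/
theorem rees (s : Finset (Fin n)) : ∀ (m : ℕ) (E : MvPolynomial (Fin n) B), VI s E → Low m E →
    eval x E = 0 → ∀ γ, Finsupp.degree γ = m →
      coeff γ E ∈ Ideal.span (x '' (s : Set (Fin n))) := by
  classical
  induction s using Finset.induction_on with
  | empty =>
    intro m E hV hE h0 γ hγ
    by_cases hc : coeff γ E = 0
    · rw [hc]; exact Ideal.zero_mem _
    · have h1 : γ = 0 := by
        ext i
        exact hV γ hc i (Finset.notMem_empty i)
      subst h1
      have h2 : E = C (coeff 0 E) := by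
        ext δ
        rw [coeff_C]
        split_ifs with h
        · rw [← h]
        · by_contra hc'
          apply h
          ext i
          exact (hV δ hc' i (Finset.notMem_empty i)).symm
      rw [h2, eval_C] at h0
      exact absurd h0 hc
  | insert a s has ih =>
    -- division by the new element
    have hA : ∀ (ν : ℕ) (b : B), In x s ν (x a * b) → In x s ν b := by
      intro ν
      induction ν with
      | zero => exact fun b _ => ⟨C b, VI.C b, low_zero _, eval_C _⟩
      | succ ν ihν =>
        rintro b ⟨H, hVH, hH, hHe⟩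
        obtain ⟨G, hVG, hG, hGe⟩ := ihν b ⟨H, hVH, hH.mono (Nat.le_succ ν), hHe⟩
        have h1 := ih ν (C (x a) * G - H) ((hVG.C_mul _).sub hVH)
          ((hG.mul_left _).sub (hH.mono (Nat.le_succ ν))) (by
            rw [map_sub, map_mul, eval_C, hHe, hGe, sub_self])
        rw [← hGe]
        refine in_succ hVG hG fun γ hγ => ?_
        have h2 := h1 γ hγ
        rw [coeff_sub, coeff_C_mul, hH.coeff_eq_zero (by omega), sub_zero] at h2
        exact ((hp _).mem_or_mem h2).resolve_left (hn _ a (by simpa using has))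
    have hle : Ideal.span (x '' (s : Set (Fin n))) ≤
        Ideal.span (x '' ((insert a s : Finset (Fin n)) : Set (Fin n))) :=
      Ideal.span_mono (Set.image_mono (by
        rw [Finset.coe_insert]; exact Set.subset_insert _ _))
    have ha : x a ∈ Ideal.span (x '' ((insert a s : Finset (Fin n)) : Set (Fin n))) :=
      Ideal.subset_span ⟨a, by simp, rfl⟩
    intro m
    induction m with
    | zero =>
      intro E hV hE h0 γ hγ
      rw [Finsupp.degree_eq_zero_iff] at hγ
      subst hγ
      rw [eval_eq_sum'] at h0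
      by_cases hc : coeff 0 E = 0
      · rw [hc]; exact Ideal.zero_mem _
      · rw [← Finset.add_sum_erase _ _ (mem_support_iff.2 hc)] at h0
        have h1 : coeff 0 E = -∑ γ ∈ E.support.erase 0, coeff γ E * ∏ i, x i ^ γ i := by
          rw [eq_neg_iff_add_eq_zero, ← h0]
          simp
        rw [h1]
        refine (Ideal.neg_mem_iff _).2 (Ideal.sum_mem _ fun γ hγ => Ideal.mul_mem_left _ _ ?_)
        have h2 : ∃ i, γ i ≠ 0 := by
          by_contra hcon
          push Not at hcon
          exact Finset.ne_of_mem_erase hγ (Finsupp.ext hcon)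
        obtain ⟨i, hi⟩ := h2
        have h3 : i ∈ insert a s := by
          by_contra h4
          exact hi (hV γ (mem_support_iff.1 (Finset.mem_of_mem_erase hγ)) i h4)
        refine Ideal.mem_of_dvd _ (Finset.dvd_prod_of_mem _ (Finset.mem_univ i)) ?_
        have h4 : x i ∈ Ideal.span (x '' ((insert a s : Finset (Fin n)) : Set (Fin n))) :=
          Ideal.subset_span ⟨i, h3, rfl⟩
        exact Ideal.pow_mem_of_mem _ h4 _ (Nat.pos_of_ne_zero hi)
    | succ m ihm =>
      intro E hV hE h0 γ hγ
      set E1 := E.divMonomial (Finsupp.single a 1) with hE1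
      set E0 := E.modMonomial (Finsupp.single a 1) with hE0
      have hdec : X a * E1 + E0 = E := divMonomial_add_modMonomial_single E a
      have hlea : ∀ γ : Fin n →₀ ℕ, Finsupp.single a 1 ≤ γ ↔ γ a ≠ 0 := by
        intro γ
        rw [Finsupp.single_le_iff, Nat.one_le_iff_ne_zero]
      have hc0 : ∀ γ, γ a = 0 → coeff γ E0 = coeff γ E := by
        intro γ h
        rw [hE0, coeff_modMonomial_of_not_le _ (by rw [hlea]; exact fun h' => h' h)]
      have hc0' : ∀ γ, γ a ≠ 0 → coeff γ E0 = 0 := by
        intro γ h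
        rw [hE0, coeff_modMonomial_of_le _ ((hlea γ).2 h)]
      have hc1 : ∀ γ, coeff γ E1 = coeff (Finsupp.single a 1 + γ) E := fun γ => by
        rw [hE1, coeff_divMonomial]
      have hV0 : VI s E0 := by
        intro γ hγ i hi
        by_cases hγa : γ a = 0
        · by_cases hia : i = a
          · rw [hia, hγa]
          · rw [hc0 γ hγa] at hγ
            exact hV γ hγ i (by rw [Finset.mem_insert]; tauto)
        · exact absurd (hc0' γ hγa) hγ
      have hV1 : VI (insert a s) E1 := by
        intro γ hγ i hi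
        rw [hc1] at hγ
        have h1 := hV _ hγ i hi
        rw [Finsupp.add_apply] at h1
        omega
      have hL0 : Low (m + 1) E0 := by
        intro γ hγ
        by_cases hγa : γ a = 0
        · rw [hc0 γ hγa] at hγ
          exact hE γ hγ
        · exact absurd (hc0' γ hγa) hγ
      have hL1 : Low m E1 := by
        intro γ hγ
        rw [hc1] at hγ
        have h1 := hE _ hγ
        rw [map_add, Finsupp.degree_single] at h1
        omega
      have hev : x a * eval x E1 + eval x E0 = 0 := by
        have h1 := congrArg (eval x) hdec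
        rw [map_add, map_mul, eval_X, h0] at h1
        exact h1
      have hIn : In x s (m + 1) (x a * eval x E1) := ⟨-E0, hV0.neg, hL0.neg, by
        rw [map_neg]
        exact (eq_neg_of_add_eq_zero_left hev).symm⟩
      obtain ⟨h, hVh, hLh, hhe⟩ := hA (m + 1) (eval x E1) hIn
      have h1 := ihm (E1 - h) (hV1.sub (hVh.mono (Finset.subset_insert a s)))
        (hL1.sub (hLh.mono (Nat.le_succ m))) (by rw [map_sub, hhe, sub_self])
      have h2 := ih (m + 1) (E0 + C (x a) * h) (hV0.add (hVh.C_mul _))
        (hL0.add (hLh.mul_left _)) (by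
          rw [map_add, map_mul, eval_C, hhe, add_comm]
          exact hev)
      by_cases hγa : γ a = 0
      · have h3 := hle (h2 γ hγ)
        rw [coeff_add, coeff_C_mul, hc0 γ hγa] at h3
        exact (Ideal.add_mem_iff_left _ (Ideal.mul_mem_right _ _ ha)).1 h3
      · obtain ⟨δ, hδ⟩ := exists_add_of_le ((hlea γ).2 hγa)
        have hd2 : Finsupp.degree δ = m := by
          rw [hδ, map_add, Finsupp.degree_single] at hγ
          omega
        have h3 := h1 δ hd2
        rw [coeff_sub, hLh.coeff_eq_zero (by omega), sub_zero, hc1, ← hδ] at h3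
        exact h3

end rees

end Pool.Agent.Q40.RP
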