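import Pool.Agent.H59.L.T97aac3.Q40.RP.Low

/-!
# Multiplicities of a polynomial at the points of a grid
-/

set_option autoImplicit false
set_option linter.unusedVariables false
set_option linter.unusedSectionVars false

universe u v

namespace Pool.Agent.Q40.RP

open MvPolynomial

section sz

variable {k : Type u} [Field k]

/-- The polynomial in the coordinates centered at `c`. -/
noncomputable def sh {n : ℕ} (c : Fin n → k) : MvPolynomial (Fin n) k →ₐ[k] MvPolynomial (Fin n) k :=
  bind₁ fun i => X i + C (c i)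

lemma sh_neg {n : ℕ} (c : Fin n → k) (F : MvPolynomial (Fin n) k) :
    sh (fun i => -c i) (sh c F) = F := by
  have h1 : (sh (fun i => -c i)).comp (sh c) = AlgHom.id k _ := by
    apply MvPolynomial.algHom_ext
    intro i
    simp [sh]
  exact DFunLike.congr_fun h1 F

lemma sh_ne {n : ℕ} (c : Fin n → k) {F : MvPolynomial (Fin n) k} (hF : F ≠ 0) : sh c F ≠ 0 := by
  intro h
  apply hF
  rw [← sh_neg c F, h, map_zero]

/-- The multiplicity at `c`. -/
noncomputable def mult {n : ℕ} (F : MvPolynomial (Fin n) k) (c : Fin n → k) : ℕ :=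
  sInf {d | ∃ γ : Fin n →₀ ℕ, coeff γ (sh c F) ≠ 0 ∧ Finsupp.degree γ = d}

lemma mult_le {n : ℕ} {F : MvPolynomial (Fin n) k} {c : Fin n → k} {γ : Fin n →₀ ℕ}
    (h : coeff γ (sh c F) ≠ 0) : mult F c ≤ Finsupp.degree γ := Nat.sInf_le ⟨γ, h, rfl⟩

lemma exists_mult {n : ℕ} {F : MvPolynomial (Fin n) k} (hF : F ≠ 0) (c : Fin n → k) :
    ∃ γ : Fin n →₀ ℕ, coeff γ (sh c F) ≠ 0 ∧ Finsupp.degree γ = mult F c := by
  have h1 : {d | ∃ γ : Fin n →₀ ℕ, coeff γ (sh c F) ≠ 0 ∧ Finsupp.degree γ = d}.Nonempty := by
    obtain ⟨γ, hγ⟩ := MvPolynomial.ne_zero_iff.1 (sh_ne c hF)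
    exact ⟨_, γ, hγ, rfl⟩
  exact Nat.sInf_mem h1

lemma low_mult {n : ℕ} (F : MvPolynomial (Fin n) k) (c : Fin n → k) : Low (mult F c) (sh c F) :=
  fun _ h => mult_le h

lemma le_mult {n : ℕ} {F : MvPolynomial (Fin n) k} (hF : F ≠ 0) {c : Fin n → k} {m : ℕ}
    (h : Low m (sh c F)) : m ≤ mult F c := by
  obtain ⟨γ, hγ, hd⟩ := exists_mult hF c
  rw [← hd]
  exact h γ hγ

/-- The coefficients with a given exponent in the last variables. -/
noncomputable def cpol {n : ℕ} (γ : Fin n →₀ ℕ) (P : Polynomial (MvPolynomial (Fin n) k)) :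
    Polynomial k :=
  ∑ s ∈ Finset.range (P.natDegree + 1), Polynomial.monomial s (coeff γ (P.coeff s))

lemma coeff_cpol {n : ℕ} (γ : Fin n →₀ ℕ) (P : Polynomial (MvPolynomial (Fin n) k)) (r : ℕ) :
    (cpol γ P).coeff r = coeff γ (P.coeff r) := by
  unfold cpol
  rw [Polynomial.finsetSum_coeff]
  simp only [Polynomial.coeff_monomial]
  rw [Finset.sum_ite_eq']
  split_ifs with h
  · rfl
  · rw [Finset.mem_range, not_lt] at h
    rw [Polynomial.coeff_eq_zero_of_natDegree_lt (by omega), coeff_zero]

lemma natDegree_cpol {n : ℕ} (γ : Fin n →₀ ℕ) (P : Polynomial (MvPolynomial (Fin n) k)) :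
    (cpol γ P).natDegree ≤ P.natDegree := by
  rw [Polynomial.natDegree_le_iff_coeff_eq_zero]
  intro r hr
  rw [coeff_cpol, Polynomial.coeff_eq_zero_of_natDegree_lt hr, coeff_zero]

/-- Change of the origin in the first coordinate. -/
lemma cpol_comp {n : ℕ} (γ : Fin n →₀ ℕ) (P : Polynomial (MvPolynomial (Fin n) k)) (b : k) (r : ℕ) :
    coeff γ ((P.comp (Polynomial.X + Polynomial.C (C b))).coeff r) =
      ((cpol γ P).comp (Polynomial.X + Polynomial.C b)).coeff r := by
  have h1 : P.comp (Polynomial.X + Polynomial.C (C b)) =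
      ∑ s ∈ Finset.range (P.natDegree + 1), Polynomial.C (P.coeff s) *
        (Polynomial.X + Polynomial.C (C b)) ^ s := by
    rw [Polynomial.comp, Polynomial.eval₂_eq_sum_range]
  have h2 : (cpol γ P).comp (Polynomial.X + Polynomial.C b) =
      ∑ s ∈ Finset.range (P.natDegree + 1), Polynomial.C (coeff γ (P.coeff s)) *
        (Polynomial.X + Polynomial.C b) ^ s := by
    rw [Polynomial.comp, Polynomial.eval₂_eq_sum_range' _ (n := P.natDegree + 1)
      (Nat.lt_succ_of_le (natDegree_cpol γ P))]
    exact Finset.sum_congr rfl fun s _ => by rw [coeff_cpol]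
  rw [h1, h2, Polynomial.finsetSum_coeff, Polynomial.finsetSum_coeff, coeff_sum]
  refine Finset.sum_congr rfl fun s _ => ?_
  rw [Polynomial.coeff_C_mul, Polynomial.coeff_C_mul, Polynomial.coeff_X_add_C_pow,
    Polynomial.coeff_X_add_C_pow]
  have h3 : ((C b : MvPolynomial (Fin n) k) ^ (s - r) * ((s.choose r : ℕ) :
      MvPolynomial (Fin n) k)) = C (b ^ (s - r) * ((s.choose r : ℕ) : k)) := by
    rw [C_mul, C_pow, map_natCast]
  rw [h3, mul_comm, coeff_C_mul, mul_comm]

lemma finSucc_sh {n : ℕ} (b : k) (a : Fin n → k) (F : MvPolynomial (Fin (n + 1)) k) :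
    finSuccEquiv k n (sh (Fin.cons b a) F) =
      ((finSuccEquiv k n F).map (sh a).toRingHom).comp
        (Polynomial.X + Polynomial.C (C b)) := by
  have h1 : ((finSuccEquiv k n : MvPolynomial (Fin (n + 1)) k →+*
      Polynomial (MvPolynomial (Fin n) k)).comp (sh (Fin.cons b a) :
      MvPolynomial (Fin (n + 1)) k →+* MvPolynomial (Fin (n + 1)) k)) =
      ((Polynomial.compRingHom (Polynomial.X + Polynomial.C (C b))).comp
        ((Polynomial.mapRingHom (sh a).toRingHom).comp (finSuccEquiv k n :
          MvPolynomial (Fin (n + 1)) k →+* Polynomial (MvPolynomial (Fin n) k)))) := by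
    apply MvPolynomial.ringHom_ext
    · intro r
      simp [sh, finSuccEquiv_apply]
    · intro i
      refine Fin.cases ?_ (fun i => ?_) i
      · simp [sh, finSuccEquiv_apply]
      · simp [sh, finSuccEquiv_apply]
  exact DFunLike.congr_fun h1 F

/-- The sum of the multiplicities of the roots in a finite set. -/
lemma sum_rootMult (S : Finset k) (c : Polynomial k) :
    ∑ b ∈ S, c.rootMultiplicity b ≤ c.natDegree := by
  classical
  have h1 : ∑ b ∈ S, c.rootMultiplicity b ≤ Multiset.card c.roots := by
    have h2 : ∑ b ∈ S ∪ c.roots.toFinset, c.roots.count b = Multiset.card c.roots := by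
      apply Multiset.sum_count_eq_card
      intro a ha
      exact Finset.mem_union_right _ (Multiset.mem_toFinset.2 ha)
    rw [← h2]
    simp only [Polynomial.count_roots]
    exact Finset.sum_le_sum_of_subset Finset.subset_union_left
  exact h1.trans (Polynomial.card_roots' c)

/-- The Schwartz–Zippel bound with multiplicities. -/
theorem sz (S : Finset k) : ∀ (n : ℕ) (F : MvPolynomial (Fin n) k), F ≠ 0 →
    S.card * ∑ c ∈ Fintype.piFinset (fun _ : Fin n => S), mult F c ≤
      F.totalDegree * S.card ^ n := by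
  classical
  intro n
  induction n with
  | zero =>
    intro F hF
    have h1 : ∀ c : Fin 0 → k, mult F c = 0 := by
      intro c
      obtain ⟨γ, hγ, hd⟩ := exists_mult hF c
      rw [← hd]
      have : γ = 0 := Subsingleton.elim _ _
      rw [this, map_zero]
    simp only [h1, Finset.sum_const_zero, mul_zero]
    exact Nat.zero_le _
  | succ n ih =>
    intro F hF
    set P := finSuccEquiv k n F with hP
    have hP0 : P ≠ 0 := by
      rw [hP]
      exact fun h => hF ((map_eq_zero_iff _ (finSuccEquiv k n).injective).1 h)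
    have hL : P.leadingCoeff ≠ 0 := Polynomial.leadingCoeff_ne_zero.2 hP0
    have hdeg : P.leadingCoeff.totalDegree + P.natDegree ≤ F.totalDegree :=
      totalDegree_coeff_finSuccEquiv_add_le F P.natDegree hL
    -- the bound on a fiber
    have hfib : ∀ a : Fin n → k, ∑ b ∈ S, mult F (Fin.cons b a : Fin (n + 1) → k) ≤
        S.card * mult P.leadingCoeff a + P.natDegree := by
      intro a
      obtain ⟨γ, hγ, hd⟩ := exists_mult hL a
      set Q := P.map (sh a).toRingHom with hQ
      have hQd : Q.natDegree ≤ P.natDegree := Polynomial.natDegree_map_le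
      have hc0 : cpol γ Q ≠ 0 := by
        intro h0
        have h1 := coeff_cpol γ Q P.natDegree
        rw [h0, Polynomial.coeff_zero, hQ, Polynomial.coeff_map] at h1
        exact hγ h1.symm
      have hb : ∀ b : k, mult F (Fin.cons b a : Fin (n + 1) → k) ≤
          mult P.leadingCoeff a + (cpol γ Q).rootMultiplicity b := by
        intro b
        have h2 : ((cpol γ Q).comp (Polynomial.X + Polynomial.C b)).coeff
            ((cpol γ Q).rootMultiplicity b) ≠ 0 := by
          rw [Polynomial.rootMultiplicity_eq_natTrailingDegree]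
          apply Polynomial.trailingCoeff_nonzero_iff_nonzero.2
          intro h3
          apply hc0
          have h4 : ((cpol γ Q).comp (Polynomial.X + Polynomial.C b)).comp
              (Polynomial.X - Polynomial.C b) = cpol γ Q := by
            rw [Polynomial.comp_assoc]
            simp
          rw [← h4, h3, Polynomial.zero_comp]
        rw [← cpol_comp, hQ, hP, ← finSucc_sh, finSuccEquiv_coeff_coeff] at h2
        refine (mult_le h2).trans (le_of_eq ?_)
        rw [← hd, hQ, hP]
        rw [Finsupp.degree_eq_sum, Fin.sum_univ_succ, Finsupp.cons_zero, add_comm,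
          Finsupp.degree_eq_sum]
        simp only [Finsupp.cons_succ]
      calc ∑ b ∈ S, mult F (Fin.cons b a : Fin (n + 1) → k)
          ≤ ∑ b ∈ S, (mult P.leadingCoeff a + (cpol γ Q).rootMultiplicity b) :=
            Finset.sum_le_sum fun b _ => hb b
        _ = S.card * mult P.leadingCoeff a + ∑ b ∈ S, (cpol γ Q).rootMultiplicity b := by
            rw [Finset.sum_add_distrib, Finset.sum_const, smul_eq_mul]
        _ ≤ S.card * mult P.leadingCoeff a + P.natDegree :=
            Nat.add_le_add_left (((sum_rootMult S _).trans (natDegree_cpol γ Q)).trans hQd) _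
    have hsum : ∑ c ∈ Fintype.piFinset (fun _ : Fin (n + 1) => S), mult F c =
        ∑ a ∈ Fintype.piFinset (fun _ : Fin n => S), ∑ b ∈ S,
          mult F (Fin.cons b a : Fin (n + 1) → k) := by
      rw [Finset.sum_comm, ← Finset.sum_product']
      symm
      refine Finset.sum_bij (fun p _ => (Fin.cons p.1 p.2 : Fin (n + 1) → k)) ?_ ?_ ?_ ?_
      · rintro ⟨b, a⟩ hp
        rw [Finset.mem_product, Fintype.mem_piFinset] at hp
        rw [Fintype.mem_piFinset]
        intro i
        refine Fin.cases ?_ (fun i => ?_) i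
        · exact hp.1
        · exact hp.2 i
      · rintro ⟨b, a⟩ _ ⟨b', a'⟩ _ h
        have h1 := Fin.cons_injective2 h
        exact Prod.ext h1.1 h1.2
      · intro c hc
        rw [Fintype.mem_piFinset] at hc
        refine ⟨(c 0, fun i => c i.succ), ?_, ?_⟩
        · rw [Finset.mem_product, Fintype.mem_piFinset]
          exact ⟨hc 0, fun i => hc _⟩
        · funext i
          refine Fin.cases rfl (fun i => rfl) i
      · rintro ⟨b, a⟩ _
        rfl
    rw [hsum]
    have hcard : (Fintype.piFinset (fun _ : Fin n => S)).card = S.card ^ n := by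
      rw [Fintype.card_piFinset, Finset.prod_const, Finset.card_univ, Fintype.card_fin]
    calc S.card * ∑ a ∈ Fintype.piFinset (fun _ : Fin n => S), ∑ b ∈ S,
          mult F (Fin.cons b a : Fin (n + 1) → k)
        ≤ S.card * ∑ a ∈ Fintype.piFinset (fun _ : Fin n => S),
          (S.card * mult P.leadingCoeff a + P.natDegree) :=
          Nat.mul_le_mul_left _ (Finset.sum_le_sum fun a _ => hfib a)
      _ = S.card * (S.card * ∑ a ∈ Fintype.piFinset (fun _ : Fin n => S),
          mult P.leadingCoeff a) + S.card * (S.card ^ n * P.natDegree) := by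
          rw [Finset.sum_add_distrib, Finset.sum_const, hcard, smul_eq_mul, ← Finset.mul_sum,
            mul_add]
      _ ≤ S.card * (P.leadingCoeff.totalDegree * S.card ^ n) +
          S.card * (S.card ^ n * P.natDegree) :=
          Nat.add_le_add_right (Nat.mul_le_mul_left _ (ih _ hL)) _
      _ = (P.leadingCoeff.totalDegree + P.natDegree) * S.card ^ (n + 1) := by ring
      _ ≤ F.totalDegree * S.card ^ (n + 1) := Nat.mul_le_mul_right _ hdeg

/-- The sum over the nonzero points, for a homogeneous polynomial. -/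
theorem sz_hom [DecidableEq k] (S : Finset k) (h0 : (0 : k) ∈ S) {n : ℕ} (hn : 1 ≤ n)
    {F : MvPolynomial (Fin n) k} (hF : F ≠ 0) {m : ℕ} (hm : F.IsHomogeneous m) :
    ∑ c ∈ (Fintype.piFinset (fun _ : Fin n => S)).erase 0, mult F c ≤
      m * (S.card ^ (n - 1) - 1) := by
  have h1 := sz S n F hF
  rw [hm.totalDegree hF] at h1
  have h2 : (0 : Fin n → k) ∈ Fintype.piFinset (fun _ : Fin n => S) := by
    rw [Fintype.mem_piFinset]
    exact fun i => h0
  rw [← Finset.add_sum_erase _ _ h2] at h1
  have h3 : mult F 0 = m := by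
    obtain ⟨γ, hγ, hd⟩ := exists_mult hF 0
    rw [← hd]
    have h4 : sh (0 : Fin n → k) F = F := by
      have : sh (0 : Fin n → k) = AlgHom.id k _ := by
        apply MvPolynomial.algHom_ext
        intro i
        simp [sh]
      rw [this]
      rfl
    rw [h4] at hγ
    have h5 := hm hγ
    rw [Finsupp.degree_eq_weight_one]
    exact h5
  rw [h3] at h1
  have hS : 0 < S.card := Finset.card_pos.2 ⟨0, h0⟩
  obtain ⟨n, rfl⟩ := Nat.exists_eq_add_of_le' hn
  rw [Nat.add_sub_cancel]
  have h4 : m + ∑ c ∈ (Fintype.piFinset (fun _ : Fin (n + 1) => S)).erase 0, mult F c ≤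
      m * S.card ^ n := by
    apply Nat.le_of_mul_le_mul_left _ hS
    refine h1.trans (le_of_eq ?_)
    ring
  rw [Nat.mul_sub, mul_one]
  omega

end sz

end Pool.Agent.Q40.RP
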