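import Pool.Agent.H59.L.T97aac3.Q40.RP.Od

/-!
# The tree of infinitely near points and the number of the bad ones
-/

set_option autoImplicit false
set_option linter.unusedVariables false
set_option linter.unusedSectionVars false

universe u v

namespace Pool.Agent.Q40.RP

open MvPolynomial

section mo

variable {K : Type u} [Field K] {k : Type v} [Field k] {n : ℕ}

/-- Division by the power of the exceptional parameter. -/
theorem Fra.div {Q : Subring K} {ρ : Q →+* k} {x x' : Fin n → K} {j : Fin n} (h : Fra Q ρ x)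
    {a : Fin n → Q} (ha : a j = 0) (hb : Blw (fun i => x i - a i * x j) x' j) {m : ℕ} {f : K}
    (hf : Inp Q x m f) : f / x j ^ m ∈ nr Q x' := by
  classical
  obtain ⟨F, hF, rfl⟩ := hf
  have ht := h.lin ha
  have hxj : x j - a j * x j = x j := by rw [ha]; simp
  set xt : Fin n → K := fun i => x i - a i * x j with hxt
  have hxtj : xt j = x j := hxj
  set F1 := bind₁ (Ls j a) F with hF1
  have hF1low : Low m F1 := hF.bind (Ls_low j a)
  have hF1ev : ev Q xt F1 = ev Q x F := by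
    rw [hF1, ev_bind]
    congr 2
    funext i
    unfold Ls
    rw [map_add, map_mul, ev_X, ev_C, ev_X, hxtj]
    simp only [hxt]
    ring
  let ψ : (Fin n →₀ ℕ) → (Fin n →₀ ℕ) := fun δ => δ.update j (Finsupp.degree δ - m)
  let D0 : Set (Fin n →₀ ℕ) := {δ | m ≤ Finsupp.degree δ}
  have hψ : ∀ δ ∈ D0, Rel j m δ (ψ δ) := fun δ hδ => rel_down hδ
  have hsup : ∀ δ, coeff δ F1 ≠ 0 → δ ∈ D0 := fun δ hδ => hF1low δ hδ
  have hxj0 : xt j ≠ 0 := ht.ne j
  have hF2 : ev Q x' (tr ψ F1) * x j ^ m = ev Q x F := by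
    rw [← hF1ev, ev_sum Q xt, ← hxtj]
    unfold tr
    rw [map_sum, Finset.sum_mul]
    refine Finset.sum_congr rfl fun δ hδ => ?_
    rw [ev_monomial, hb.prod (hψ δ (hsup δ (mem_support_iff.1 hδ)))]
    ring
  rw [← hF2, mul_div_assoc, div_self (pow_ne_zero _ (by rw [← hxtj]; exact hxj0)), mul_one]
  exact ev_mem_nr Q x' _

/-- A unit times a monomial in the parameters. -/
def Mo (Q : Subring K) (x : Fin n → K) (f : K) : Prop :=
  ∃ u : K, u ≠ 0 ∧ u ∈ Q ∧ u⁻¹ ∈ Q ∧ ∃ γ : Fin n → ℕ, f = u * ∏ i, x i ^ γ i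

lemma Mo.mul {Q : Subring K} {x : Fin n → K} {f g : K} (hf : Mo Q x f) (hg : Mo Q x g) :
    Mo Q x (f * g) := by
  obtain ⟨u, u0, u1, u2, γ, rfl⟩ := hf
  obtain ⟨v, v0, v1, v2, δ, rfl⟩ := hg
  refine ⟨u * v, mul_ne_zero u0 v0, Q.mul_mem u1 v1, by rw [mul_inv]; exact Q.mul_mem u2 v2,
    γ + δ, ?_⟩
  simp only [Pi.add_apply, pow_add, Finset.prod_mul_distrib]
  ring

lemma Mo.unit {Q : Subring K} {x : Fin n → K} {u : K} (u0 : u ≠ 0) (u1 : u ∈ Q) (u2 : u⁻¹ ∈ Q) :
    Mo Q x u := ⟨u, u0, u1, u2, 0, by simp⟩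

lemma Mo.one {Q : Subring K} {x : Fin n → K} : Mo Q x 1 :=
  Mo.unit one_ne_zero Q.one_mem (by rw [inv_one]; exact Q.one_mem)

lemma Mo.self (Q : Subring K) (x : Fin n → K) (i : Fin n) : Mo Q x (x i) := by
  classical
  refine ⟨1, one_ne_zero, Q.one_mem, by rw [inv_one]; exact Q.one_mem, Pi.single i 1, ?_⟩
  rw [one_mul, Finset.prod_eq_single i]
  · rw [Pi.single_eq_same, pow_one]
  · intro l _ hl
    rw [Pi.single_eq_of_ne hl, pow_zero]
  · intro hi
    exact absurd (Finset.mem_univ _) hi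

lemma Mo.pow {Q : Subring K} {x : Fin n → K} {f : K} (hf : Mo Q x f) (m : ℕ) :
    Mo Q x (f ^ m) := by
  induction m with
  | zero => rw [pow_zero]; exact Mo.one
  | succ m ih => rw [pow_succ]; exact ih.mul hf

lemma Mo.prod {Q : Subring K} {x : Fin n → K} {μ : Type v} (s : Finset μ) {f : μ → K}
    (hf : ∀ i ∈ s, Mo Q x (f i)) : Mo Q x (∏ i ∈ s, f i) := by
  classical
  induction s using Finset.induction_on with
  | empty => rw [Finset.prod_empty]; exact Mo.one
  | insert a s ha ih =>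
    rw [Finset.prod_insert ha]
    exact (hf a (Finset.mem_insert_self _ _)).mul (ih fun i hi => hf i (Finset.mem_insert_of_mem hi))

lemma Mo.of_gen {Q Q' : Subring K} {x x' : Fin n → K} (hQ : Q ≤ Q') (h : ∀ i, Mo Q' x' (x i))
    {f : K} (hf : Mo Q x f) : Mo Q' x' f := by
  obtain ⟨u, u0, u1, u2, γ, rfl⟩ := hf
  exact (Mo.unit u0 (hQ u1) (hQ u2)).mul (Mo.prod _ fun i _ => (h i).pow _)

end mo

section step

variable {K : Type u} [Field K] {k : Type v} [Field k] {n : ℕ}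

/-- The new parameters at the point with homogeneous coordinates `c`. -/
def stp (j : Fin n) (c x : Fin n → K) (i : Fin n) : K :=
  if i = j then x j else x i / x j - c i / c j

/-- The local rings with parameters. -/
abbrev Sta (K : Type u) [Field K] (n : ℕ) := Subring K × (Fin n → K)

/-- The next local ring with parameters. -/
noncomputable def nx {O : Subring K} (piv : (Fin n → O) → Fin n) (s : Sta K n) (c : Fin n → O) :
    Sta K n :=
  (nr s.1 (stp (piv c) (fun i => (c i : K)) s.2), stp (piv c) (fun i => (c i : K)) s.2)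

/-- The data. -/
structure Dat (O : Subring K) (ρ0 : O →+* k) (S : Finset O) (piv : (Fin n → O) → Fin n) : Prop where
  unit : ∀ a : O, ρ0 a ≠ 0 → (a : K)⁻¹ ∈ O
  zero : (0 : O) ∈ S
  inj : Set.InjOn ρ0 S
  piv : ∀ c : Fin n → O, c ≠ 0 → c (piv c) ≠ 0

/-- The local rings with quasi-regular parameters and the same residue field. -/
def Gd (O : Subring K) (ρ0 : O →+* k) (s : Sta K n) : Prop :=
  ∃ (hO : O ≤ s.1) (ρ : s.1 →+* k), Fra s.1 ρ s.2 ∧ ∀ a : O, ρ ⟨a, hO a.2⟩ = ρ0 a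

/-- The nonzero vectors with coordinates in `S`. -/
def IsLt {O : Subring K} (S : Finset O) (c : Fin n → O) : Prop := (∀ i, c i ∈ S) ∧ c ≠ 0

variable {O : Subring K} {ρ0 : O →+* k} {S : Finset O} {piv : (Fin n → O) → Fin n}

lemma Dat.rho_ne (hd : Dat O ρ0 S piv) {c : Fin n → O} (hc : IsLt S c) : ρ0 (c (piv c)) ≠ 0 := by
  intro h0
  have h1 := hd.inj (hc.1 (piv c)) hd.zero (by rw [h0, map_zero])
  exact hd.piv c hc.2 h1

/-- The data of the step. -/
lemma Dat.step (hd : Dat O ρ0 S piv) {c : Fin n → O} (hc : IsLt S c) {s : Sta K n} (hO : O ≤ s.1)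
    {ρ : s.1 →+* k} (hf : Fra s.1 ρ s.2) (hρ : ∀ a : O, ρ ⟨a, hO a.2⟩ = ρ0 a) :
    ∃ a : Fin n → s.1, a (piv c) = 0 ∧ (∀ i, i ≠ piv c → (a i : K) = c i / c (piv c)) ∧
      (∀ i, i ≠ piv c → ρ (a i) * ρ0 (c (piv c)) = ρ0 (c i)) ∧
      Blw (fun i => s.2 i - a i * s.2 (piv c)) (stp (piv c) (fun i => (c i : K)) s.2) (piv c) := by
  classical
  have h1 := hd.rho_ne hc
  have h2 : ((c (piv c) : O) : K)⁻¹ ∈ O := hd.unit _ h1
  have h3 : ((c (piv c) : O) : K) ≠ 0 := by
    intro h0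
    exact hd.piv c hc.2 (Subtype.ext h0)
  have h4 : ∀ i, (c i : K) / c (piv c) ∈ s.1 := fun i => by
    rw [div_eq_mul_inv]
    exact s.1.mul_mem (hO (c i).2) (hO h2)
  have hx := hf.ne (piv c)
  refine ⟨fun i => if i = piv c then 0 else ⟨_, h4 i⟩, if_pos rfl, fun i hi => ?_, fun i hi => ?_,
    ?_, fun i hi => ?_⟩
  · simp only [if_neg hi]
  · simp only [if_neg hi]
    rw [← hρ, ← map_mul, ← hρ (c i)]
    congr 1
    apply Subtype.ext
    change (c i : K) / c (piv c) * c (piv c) = c i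
    field_simp
  · simp [stp]
  · simp only [if_neg hi, if_true, stp]
    simp
    field_simp

/-- The next local ring. -/
theorem Gd.next (hd : Dat O ρ0 S piv) {c : Fin n → O} (hc : IsLt S c) {s : Sta K n}
    (h : Gd O ρ0 s) : Gd O ρ0 (nx piv s c) := by
  obtain ⟨hO, ρ, hf, hρ⟩ := h
  obtain ⟨a, ha, ha', hac, hb⟩ := hd.step hc hO hf hρ
  refine ⟨hO.trans (le_nr _ _), rh (hf.lin ha) hb, (hf.lin ha).blow hb, fun b => ?_⟩
  exact (rh_C (hf.lin ha) hb (z := ⟨(b : K), (hO.trans (le_nr _ _)) b.2⟩) ⟨b, hO b.2⟩ rfl).trans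
    (hρ b)

/-- Monomials remain monomials. -/
theorem Gd.mo (hd : Dat O ρ0 S piv) {c : Fin n → O} (hc : IsLt S c) {s : Sta K n}
    (h : Gd O ρ0 s) {f : K} (hm : Mo s.1 s.2 f) : Mo (nx piv s c).1 (nx piv s c).2 f := by
  classical
  obtain ⟨hO, ρ, hf, hρ⟩ := h
  obtain ⟨a, ha, ha', hac, hb⟩ := hd.step hc hO hf hρ
  have hx := hf.ne (piv c)
  have hfr := (hf.lin ha).blow hb
  set x' := stp (piv c) (fun i => (c i : K)) s.2 with hx'
  have hx'j : x' (piv c) = s.2 (piv c) := by rw [hx']; simp [stp]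
  refine Mo.of_gen (le_nr _ _) (fun i => ?_) hm
  change Mo (nr s.1 x') x' (s.2 i)
  by_cases hi : i = piv c
  · rw [hi, ← hx'j]
    exact Mo.self _ _ _
  · have h1 : s.2 i = x' (piv c) * (x' i + a i) := by
      rw [hx'j, ha' i hi, hx']
      simp only [stp, if_neg hi]
      field_simp
      ring
    rw [h1]
    refine (Mo.self _ _ _).mul ?_
    by_cases h0 : ρ (a i) = 0
    · have h2 : ρ0 (c i) = 0 := by rw [← hac i hi, h0, zero_mul]
      have h3 : c i = 0 := hd.inj (hc.1 i) hd.zero (by rw [h2, map_zero])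
      rw [ha' i hi, h3, ZeroMemClass.coe_zero, zero_div, add_zero]
      exact Mo.self _ _ _
    · have h2 : x' i + a i ∈ nr s.1 x' := (nr s.1 x').add_mem (x_mem_nr _ _ _) (le_nr _ _ (a i).2)
      have h3 : rh (hf.lin ha) hb ⟨_, h2⟩ = ρ (a i) := by
        have h4 : (⟨_, h2⟩ : nr s.1 x') = ⟨x' i, x_mem_nr _ _ _⟩ + ⟨a i, le_nr _ _ (a i).2⟩ := rfl
        rw [h4, map_add, hfr.rho_x i, zero_add,
          rh_C (hf.lin ha) hb (z := ⟨(a i : K), le_nr _ _ (a i).2⟩) (a i) rfl]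
      refine Mo.unit ?_ h2 (hfr.inv ⟨_, h2⟩ (by rw [h3]; exact h0))
      intro h4
      have h5 : (⟨_, h2⟩ : nr s.1 x') = 0 := Subtype.ext h4
      rw [h5, map_zero] at h3
      exact h0 h3.symm

/-- The ideal generated by `J` is generated by an element of `J` which is a unit times a
monomial. -/
def Pr (s : Sta K n) (J : Set K) : Prop := ∃ f ∈ J, Mo s.1 s.2 f ∧ ∀ g ∈ J, g / f ∈ s.1

lemma Gd.pr (hd : Dat O ρ0 S piv) {c : Fin n → O} (hc : IsLt S c) {s : Sta K n}
    (h : Gd O ρ0 s) {J : Set K} (hJ : Pr s J) : Pr (nx piv s c) J := by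
  obtain ⟨f, hf, hm, hg⟩ := hJ
  exact ⟨f, hf, h.mo hd hc hm, fun g hgJ => le_nr _ _ (hg g hgJ)⟩

/-- The local ring at the end of a word. -/
noncomputable def run (piv : (Fin n → O) → Fin n) (s : Sta K n) (w : List (Fin n → O)) : Sta K n :=
  w.foldl (nx piv) s

lemma Gd.run (hd : Dat O ρ0 S piv) {w : List (Fin n → O)} (hw : ∀ c ∈ w, IsLt S c) {s : Sta K n}
    (h : Gd O ρ0 s) : Gd O ρ0 (run piv s w) := by
  induction w generalizing s with
  | nil => exact h
  | cons c w ih =>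
    exact ih (fun c' hc' => hw c' (List.mem_cons_of_mem _ hc'))
      (h.next hd (hw c List.mem_cons_self))

lemma Gd.mo_run (hd : Dat O ρ0 S piv) {w : List (Fin n → O)} (hw : ∀ c ∈ w, IsLt S c)
    {s : Sta K n} (h : Gd O ρ0 s) {f : K} (hm : Mo s.1 s.2 f) :
    Mo (RP.run piv s w).1 (RP.run piv s w).2 f := by
  induction w generalizing s with
  | nil => exact hm
  | cons c w ih =>
    exact ih (fun c' hc' => hw c' (List.mem_cons_of_mem _ hc'))
      (h.next hd (hw c List.mem_cons_self)) (h.mo hd (hw c List.mem_cons_self) hm)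

end step

end Pool.Agent.Q40.RP
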